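import Mathlib

set_option autoImplicit false

/-!
# Alternations between small and large terms of a sequence, from windows
-/

namespace Pool.Agent.V11270.GS

open Finset

/-- the window `[n, n + l)` contains no index with `X` or no index with `Y` -/
def Bad (X Y : ℕ → Prop) (l n : ℕ) : Prop :=
  (∀ i, n ≤ i → i < n + l → ¬ X i) ∨ (∀ i, n ≤ i → i < n + l → ¬ Y i)

/-- `k` alternations in the block `[n, n + m)` -/
def Alt (X Y : ℕ → Prop) (k m n : ℕ) : Prop :=
  ∃ i j : Fin k → ℕ, (∀ a, n ≤ i a ∧ i a < j a ∧ j a < n + m ∧ X (i a) ∧ Y (j a)) ∧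
    ∀ a b, a < b → j a < i b

lemma alt_of_good {X Y : ℕ → Prop} {k l m n : ℕ} (hm : 4 * k * l ≤ m) (G : Finset ℕ)
    (hG : ∀ q ∈ G, q < 4 * k ∧ ¬ Bad X Y l (n + q * l)) (hc : 2 * k ≤ G.card) : Alt X Y k m n := by
  classical
  obtain ⟨G', hG', hcard⟩ := Finset.exists_subset_card_eq hc
  have hX : ∀ q ∈ G, ∃ i, n + q * l ≤ i ∧ i < n + q * l + l ∧ X i := by
    intro q hq
    by_contra h
    push Not at h
    exact (hG q hq).2 (Or.inl fun i h1 h2 => h i h1 h2)
  have hY : ∀ q ∈ G, ∃ i, n + q * l ≤ i ∧ i < n + q * l + l ∧ Y i := by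
    intro q hq
    by_contra h
    push Not at h
    exact (hG q hq).2 (Or.inr fun i h1 h2 => h i h1 h2)
  choose! x hx using hX
  choose! y hy using hY
  obtain ⟨e, he⟩ : ∃ e : Fin (2 * k) ↪o ℕ, e = G'.orderEmbOfFin hcard := ⟨_, rfl⟩
  have hmem : ∀ a, e a ∈ G := fun a => hG' (by rw [he]; exact Finset.orderEmbOfFin_mem _ _ _)
  have hlt : ∀ a b, a < b → e a * l + l ≤ e b * l := by
    intro a b hab
    have h1 : e a < e b := e.lt_iff_lt.2 hab
    calc e a * l + l = (e a + 1) * l := by ring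
      _ ≤ e b * l := Nat.mul_le_mul_right _ h1
  have hbd : ∀ a, e a * l + l ≤ m := by
    intro a
    have h1 := (hG _ (hmem a)).1
    calc e a * l + l = (e a + 1) * l := by ring
      _ ≤ (4 * k) * l := Nat.mul_le_mul_right _ h1
      _ ≤ m := hm
  refine ⟨fun a => x (e ⟨2 * a, by omega⟩), fun a => y (e ⟨2 * a + 1, by omega⟩), fun a => ?_,
    fun a b hab => ?_⟩
  · obtain ⟨h1, h2, h3⟩ := hx _ (hmem ⟨2 * a, by omega⟩)
    obtain ⟨g1, g2, g3⟩ := hy _ (hmem ⟨2 * a + 1, by omega⟩)
    have h4 := hlt ⟨2 * a, by omega⟩ ⟨2 * a + 1, by omega⟩ (by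
      rw [Fin.lt_def]
      show 2 * (a : ℕ) < 2 * a + 1
      omega)
    have h5 := hbd ⟨2 * a + 1, by omega⟩
    dsimp only
    refine ⟨by omega, by omega, by omega, h3, g3⟩
  · obtain ⟨h1, h2, h3⟩ := hx _ (hmem ⟨2 * b, by omega⟩)
    obtain ⟨g1, g2, g3⟩ := hy _ (hmem ⟨2 * a + 1, by omega⟩)
    have h4 := hlt ⟨2 * a + 1, by omega⟩ ⟨2 * b, by omega⟩ (by
      rw [Fin.lt_def] at hab ⊢
      show 2 * (a : ℕ) + 1 < 2 * b
      omega)
    show y _ < x _
    omega

/-- the double count -/
theorem alt_count {X Y : ℕ → Prop} {C : ℝ} (hC : 0 < C)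
    (h : ∀ N : ℕ, 2 ≤ N → ∀ l : ℕ, 1 ≤ l →
      ({n : ℕ | 1 ≤ n ∧ n ≤ N ∧ Bad X Y l n}.ncard : ℝ) ≤ C * (N * (1 / l + 1 / Real.log N)))
    {N k m : ℕ} (hN : 2 ≤ N) (hk : 1 ≤ k) (hmN : m ≤ N) (hm1 : 1 ≤ m) :
    ({n : ℕ | 1 ≤ n ∧ n ≤ N ∧ ¬ Alt X Y k m n}.ncard : ℝ) ≤
      (32 * C + 4) * (N * (k / m + 1 / Real.log N)) := by
  classical
  obtain ⟨Q, hQ⟩ : ∃ Q : ℕ → Prop, Q = fun n => ¬ Alt X Y k m n := ⟨_, rfl⟩
  have hgoal : ({n : ℕ | 1 ≤ n ∧ n ≤ N ∧ ¬ Alt X Y k m n}.ncard : ℝ) =
      ({n : ℕ | 1 ≤ n ∧ n ≤ N ∧ Q n}.ncard : ℝ) := by rw [hQ]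
  rw [hgoal]
  have hNr : (0 : ℝ) < N := by
    have : 0 < N := by omega
    exact_mod_cast this
  have hkr : (1 : ℝ) ≤ k := by exact_mod_cast hk
  have hmr : (0 : ℝ) < m := by exact_mod_cast hm1
  have hlog : 0 < Real.log N := Real.log_pos (by
    have : 1 < N := by omega
    exact_mod_cast this)
  have hfin : ∀ M : ℕ, ∀ P : ℕ → Prop, {n : ℕ | 1 ≤ n ∧ n ≤ M ∧ P n}.ncard =
      ((Finset.Icc 1 M).filter P).card := by
    intro M P
    rw [← Set.ncard_coe_finset]
    congr 1
    ext n
    simp [and_assoc]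
  rcases lt_or_ge m (4 * k) with hmk | hmk
  · have h1 : ({n : ℕ | 1 ≤ n ∧ n ≤ N ∧ Q n}.ncard : ℝ) ≤ N := by
      rw [hfin]
      have h2 := Finset.card_filter_le (Finset.Icc 1 N) (fun n => Q n)
      rw [Nat.card_Icc] at h2
      have h3 : ((Finset.Icc 1 N).filter (fun n => Q n)).card ≤ N := by omega
      exact_mod_cast h3
    refine h1.trans ?_
    have h2 : 1 / 4 ≤ (k : ℝ) / m := by
      rw [div_le_div_iff₀ (by norm_num) hmr]
      have : (m : ℝ) < 4 * k := by exact_mod_cast hmk
      linarith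
    have h3 : 0 < 1 / Real.log N := by positivity
    calc (N : ℝ) = 4 * (N * (1 / 4)) := by ring
      _ ≤ (32 * C + 4) * (N * (k / m + 1 / Real.log N)) := by
          apply mul_le_mul (by linarith) _ (by positivity) (by positivity)
          apply mul_le_mul_of_nonneg_left _ hNr.le
          linarith
  · obtain ⟨l, hl⟩ : ∃ l, l = m / (4 * k) := ⟨_, rfl⟩
    have hl1 : 1 ≤ l := by
      rw [hl]
      exact (Nat.one_le_div_iff (by omega)).2 hmk
    have hl2 : 4 * k * l ≤ m := by
      rw [hl]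
      exact Nat.mul_div_le m (4 * k)
    have hl3 : m ≤ 8 * k * l := by
      have h1 : m < 4 * k * (l + 1) := by
        rw [hl]
        exact Nat.lt_mul_div_succ m (by omega)
      have h2 : 4 * k * (l + 1) ≤ 4 * k * (2 * l) := Nat.mul_le_mul_left _ (by omega)
      calc m ≤ 4 * k * (2 * l) := (h1.trans_le h2).le
        _ = 8 * k * l := by ring
    have hlr : (0 : ℝ) < l := by exact_mod_cast hl1
    -- few good windows
    have h1 : ∀ n, Q n →
        2 * k ≤ ((Finset.range (4 * k)).filter (fun q => Bad X Y l (n + q * l))).card := by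
      intro n hn
      rw [hQ] at hn
      by_contra hcon
      push Not at hcon
      apply hn
      refine alt_of_good hl2 ((Finset.range (4 * k)).filter (fun q => ¬ Bad X Y l (n + q * l)))
        (fun q hq => ?_) ?_
      · rw [Finset.mem_filter, Finset.mem_range] at hq
        exact hq
      · have h2 := Finset.card_filter_add_card_filter_not (s := Finset.range (4 * k))
          (fun q => Bad X Y l (n + q * l))
        rw [Finset.card_range] at h2
        omega
    have h2 : 2 * k * ((Finset.Icc 1 N).filter (fun n => Q n)).card ≤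
        ∑ q ∈ Finset.range (4 * k), ((Finset.Icc 1 N).filter
          (fun n => Bad X Y l (n + q * l))).card := by
      calc 2 * k * ((Finset.Icc 1 N).filter (fun n => Q n)).card
          = ∑ n ∈ (Finset.Icc 1 N).filter (fun n => Q n), 2 * k := by
            rw [Finset.sum_const, smul_eq_mul]
            ring
        _ ≤ ∑ n ∈ (Finset.Icc 1 N).filter (fun n => Q n),
            ((Finset.range (4 * k)).filter (fun q => Bad X Y l (n + q * l))).card :=
            Finset.sum_le_sum fun n hn => h1 n (Finset.mem_filter.1 hn).2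
        _ ≤ ∑ n ∈ Finset.Icc 1 N,
            ((Finset.range (4 * k)).filter (fun q => Bad X Y l (n + q * l))).card :=
            Finset.sum_le_sum_of_subset (Finset.filter_subset _ _)
        _ = ∑ q ∈ Finset.range (4 * k), ((Finset.Icc 1 N).filter
          (fun n => Bad X Y l (n + q * l))).card := by
            simp_rw [Finset.card_filter]
            exact Finset.sum_comm
    have h3 : ∀ q ∈ Finset.range (4 * k), ((Finset.Icc 1 N).filter
          (fun n => Bad X Y l (n + q * l))).card ≤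
          ((Finset.Icc 1 (2 * N)).filter (fun n => Bad X Y l n)).card := by
      intro q hq
      rw [Finset.mem_range] at hq
      have hql : q * l ≤ N := by
        have : q * l ≤ (4 * k) * l := Nat.mul_le_mul_right _ hq.le
        omega
      apply Finset.card_le_card_of_injOn (fun n => n + q * l)
      · intro n hn
        rw [Finset.mem_coe, Finset.mem_filter, Finset.mem_Icc] at hn ⊢
        dsimp only
        exact ⟨⟨by omega, by omega⟩, hn.2⟩
      · intro a _ b _ hab
        have : a + q * l = b + q * l := hab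
        omega
    have h4 := h (2 * N) (by omega) l hl1
    rw [hfin] at h4 ⊢
    have h5 : 2 * k * ((Finset.Icc 1 N).filter (fun n => Q n)).card ≤
        4 * k * ((Finset.Icc 1 (2 * N)).filter (fun n => Bad X Y l n)).card := by
      refine h2.trans ((Finset.sum_le_sum h3).trans (le_of_eq ?_))
      rw [Finset.sum_const, Finset.card_range, smul_eq_mul]
    have h6 : (((Finset.Icc 1 N).filter (fun n => Q n)).card : ℝ) ≤
        2 * (((Finset.Icc 1 (2 * N)).filter (fun n => Bad X Y l n)).card : ℝ) := by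
      have h7 : (2 * k * ((Finset.Icc 1 N).filter (fun n => Q n)).card : ℝ) ≤
          4 * k * ((Finset.Icc 1 (2 * N)).filter (fun n => Bad X Y l n)).card := by
        exact_mod_cast h5
      have h8 : (0 : ℝ) < 2 * k := by positivity
      nlinarith
    refine h6.trans ?_
    push_cast at h4
    have h9 : 1 / (l : ℝ) ≤ 8 * (k / m) := by
      rw [mul_div_assoc', div_le_div_iff₀ hlr hmr]
      have : (m : ℝ) ≤ 8 * k * l := by exact_mod_cast hl3
      linarith
    have h10 : 1 / Real.log (2 * N) ≤ 1 / Real.log N := by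
      apply one_div_le_one_div_of_le hlog
      apply Real.log_le_log hNr
      linarith
    have h11 : 0 < 1 / Real.log N := by positivity
    have h12 : 0 < (k : ℝ) / m := by positivity
    calc 2 * (((Finset.Icc 1 (2 * N)).filter (fun n => Bad X Y l n)).card : ℝ)
        ≤ 2 * (C * (2 * N * (1 / l + 1 / Real.log (2 * N)))) := by linarith
      _ ≤ 2 * (C * (2 * N * (8 * (k / m) + 1 / Real.log N))) := by
          apply mul_le_mul_of_nonneg_left _ (by norm_num)
          apply mul_le_mul_of_nonneg_left _ hC.le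
          apply mul_le_mul_of_nonneg_left _ (by positivity)
          linarith
      _ ≤ 2 * (C * (2 * N * (8 * (k / m) + 8 * (1 / Real.log N)))) := by
          apply mul_le_mul_of_nonneg_left _ (by norm_num)
          apply mul_le_mul_of_nonneg_left _ hC.le
          apply mul_le_mul_of_nonneg_left _ (by positivity)
          linarith
      _ = 32 * C * (N * (k / m + 1 / Real.log N)) := by ring
      _ ≤ (32 * C + 4) * (N * (k / m + 1 / Real.log N)) := by
          apply mul_le_mul_of_nonneg_right (by linarith) (by positivity)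

/-- an alternating block is not a concatenation of few monotone pieces -/
lemma not_pieces {f : ℕ → ℝ} {u v : ℝ} (huv : u ≤ v) {k m n : ℕ}
    (h : Alt (fun i => f i < u) (fun i => v < f i) (k + 1) m n) (b : ℕ → ℕ) (hb0 : b 0 = 0)
    (hbk : b k = m)
    (hp : ∀ q < k, MonotoneOn f (Set.Ico (n + b q) (n + b (q + 1))) ∨
      AntitoneOn f (Set.Ico (n + b q) (n + b (q + 1)))) : False := by
  classical
  obtain ⟨i, j, h1, h2⟩ := h
  -- the piece of an index
  have hq : ∀ a, ∃ q, q < k ∧ n + b q ≤ i a ∧ i a < n + b (q + 1) := by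
    intro a
    obtain ⟨g1, g2, g3, -⟩ := h1 a
    have hex : ∃ q, i a < n + b q := ⟨k, by rw [hbk]; omega⟩
    have hs := Nat.find_spec hex
    have hm := Nat.find_min hex (m := Nat.find hex - 1)
    have hpos : 0 < Nat.find hex := by
      rcases Nat.eq_zero_or_pos (Nat.find hex) with h0 | h0
      · rw [h0, hb0] at hs
        omega
      · exact h0
    have hle : Nat.find hex ≤ k := Nat.find_min' hex (by rw [hbk]; omega)
    refine ⟨Nat.find hex - 1, by omega, ?_, ?_⟩
    · have := hm (by omega)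
      omega
    · rw [Nat.sub_add_cancel hpos]
      exact hs
  choose q hq using hq
  obtain ⟨a, a', haa, hqq⟩ : ∃ a a' : Fin (k + 1), a ≠ a' ∧ q a = q a' := by
    have h3 : ∃ a ∈ (Finset.univ : Finset (Fin (k + 1))), ∃ a' ∈ (Finset.univ : Finset (Fin (k + 1))),
        a ≠ a' ∧ q a = q a' := by
      apply Finset.exists_ne_map_eq_of_card_lt_of_maps_to (t := Finset.range k)
      · simp
      · intro a _
        simp only [Finset.coe_range, Set.mem_Iio]
        exact (hq a).1
    obtain ⟨a, -, a', -, h4⟩ := h3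
    exact ⟨a, a', h4⟩
  wlog hlt : a < a' generalizing a a'
  · exact this a' a haa.symm hqq.symm (lt_of_le_of_ne (not_lt.1 hlt) haa.symm)
  obtain ⟨g1, g2, g3⟩ := hq a
  obtain ⟨e1, e2, e3⟩ := hq a'
  rw [← hqq] at e2 e3
  obtain ⟨u1, u2, u3, u4, u5⟩ := h1 a
  obtain ⟨v1, v2, v3, v4, v5⟩ := h1 a'
  have h5 := h2 a a' hlt
  have m1 : i a ∈ Set.Ico (n + b (q a)) (n + b (q a + 1)) := ⟨g2, g3⟩
  have m2 : j a ∈ Set.Ico (n + b (q a)) (n + b (q a + 1)) := ⟨by omega, by omega⟩
  have m3 : i a' ∈ Set.Ico (n + b (q a)) (n + b (q a + 1)) := ⟨e2, e3⟩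
  rcases hp _ g1 with h6 | h6
  · have := h6 m2 m3 h5.le
    linarith
  · have := h6 m1 m2 u2.le
    linarith

/-- local maxima -/
lemma local_max {f : ℕ → ℝ} {u v : ℝ} (huv : u ≤ v) {s t r : ℕ} (hst : s < t) (htr : t < r)
    (hs : f s < u) (ht : v < f t) (hr : f r < u) :
    ∃ p, s < p ∧ p < r ∧ v < f p ∧ f (p - 1) ≤ f p ∧ f (p + 1) ≤ f p := by
  obtain ⟨p, hp, hmax⟩ := Finset.exists_max_image (Finset.Icc s r) f ⟨s, by simp; omega⟩
  rw [Finset.mem_Icc] at hp
  have h1 : v < f p := ht.trans_le (hmax t (Finset.mem_Icc.2 ⟨by omega, by omega⟩))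
  have h2 : p ≠ s := by
    rintro rfl
    linarith
  have h3 : p ≠ r := by
    rintro rfl
    linarith
  refine ⟨p, by omega, by omega, h1, hmax _ (Finset.mem_Icc.2 ⟨by omega, by omega⟩),
    hmax _ (Finset.mem_Icc.2 ⟨by omega, by omega⟩)⟩

/-- an upward step -/
lemma step_up {f : ℕ → ℝ} {s t : ℕ} (hst : s < t) {D η : ℝ} (hD : D ≤ f t - f s)
    (hη : η * (t - s) ≤ D) : ∃ p, s ≤ p ∧ p < t ∧ η ≤ f (p + 1) - f p := by
  by_contra hcon
  push Not at hcon
  have h1 : f t - f s = ∑ p ∈ Finset.Ico s t, (f (p + 1) - f p) := by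
    rw [Finset.sum_Ico_sub f hst.le]
  have h2 : ∑ p ∈ Finset.Ico s t, (f (p + 1) - f p) < ∑ _p ∈ Finset.Ico s t, η := by
    apply Finset.sum_lt_sum_of_nonempty
    · exact ⟨s, Finset.mem_Ico.2 ⟨le_rfl, hst⟩⟩
    · intro p hp
      rw [Finset.mem_Ico] at hp
      exact hcon p hp.1 hp.2
  rw [Finset.sum_const, Nat.card_Ico, nsmul_eq_mul, Nat.cast_sub hst.le] at h2
  linarith

/-- many short intervals among disjoint ones -/
lemma short_many {k m n : ℕ} (hk : 1 ≤ k) (s t : Fin k → ℕ) (h1 : ∀ a, n ≤ s a ∧ s a < t a ∧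
    t a ≤ n + m) (h2 : ∀ a b, a < b → t a ≤ s b) :
    k ≤ 2 * ((Finset.univ : Finset (Fin k)).filter (fun a => (t a - s a) * k ≤ 2 * m)).card := by
  classical
  have hsum : ∑ a, (t a - s a) ≤ m := by
    have h3 : (Finset.univ : Finset (Fin k)).sum (fun a => (Finset.Ico (s a) (t a)).card) ≤
        (Finset.Ico n (n + m)).card := by
      rw [← Finset.card_biUnion]
      · apply Finset.card_le_card
        intro x hx
        rw [Finset.mem_biUnion] at hx
        obtain ⟨a, -, ha⟩ := hx
        rw [Finset.mem_Ico] at ha ⊢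
        have := h1 a
        omega
      · intro a _ b _ hab
        show Disjoint (Finset.Ico (s a) (t a)) (Finset.Ico (s b) (t b))
        rw [Finset.disjoint_left]
        intro x hx hy
        rw [Finset.mem_Ico] at hx hy
        rcases lt_or_gt_of_ne hab with h | h
        · have := h2 a b h
          omega
        · have := h2 b a h
          omega
    simpa using h3
  by_contra hcon
  push Not at hcon
  have h4 := Finset.card_filter_add_card_filter_not (s := (Finset.univ : Finset (Fin k)))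
    (fun a => (t a - s a) * k ≤ 2 * m)
  rw [Finset.card_univ, Fintype.card_fin] at h4
  have h5 : k < 2 * ((Finset.univ : Finset (Fin k)).filter
      (fun a => ¬ (t a - s a) * k ≤ 2 * m)).card := by omega
  have h6 : ((Finset.univ : Finset (Fin k)).filter (fun a => ¬ (t a - s a) * k ≤ 2 * m)).card *
      (2 * m + 1) ≤ m * k := by
    calc ((Finset.univ : Finset (Fin k)).filter (fun a => ¬ (t a - s a) * k ≤ 2 * m)).card *
          (2 * m + 1) = ∑ _a ∈ (Finset.univ : Finset (Fin k)).filter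
          (fun a => ¬ (t a - s a) * k ≤ 2 * m), (2 * m + 1) := by
          rw [Finset.sum_const, smul_eq_mul]
      _ ≤ ∑ a ∈ (Finset.univ : Finset (Fin k)).filter
          (fun a => ¬ (t a - s a) * k ≤ 2 * m), (t a - s a) * k :=
          Finset.sum_le_sum fun a ha => by
            have := (Finset.mem_filter.1 ha).2
            omega
      _ ≤ ∑ a, (t a - s a) * k := Finset.sum_le_sum_of_subset (Finset.filter_subset _ _)
      _ = (∑ a, (t a - s a)) * k := by rw [Finset.sum_mul]
      _ ≤ m * k := Nat.mul_le_mul_right _ hsum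
  nlinarith

end Pool.Agent.V11270.GS
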