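import Mathlib
import Pool.Agent.V11270.GS.Alt

set_option autoImplicit false

/-!
# Consequences of many alternations in a block
-/

namespace Pool.Agent.V11270.GS

open Finset

variable {f : ℕ → ℝ} {c : ℝ} {k m n : ℕ}

/-- alternations of `f` between values below `1 - c` and above `1 + c` -/
abbrev AltF (f : ℕ → ℝ) (c : ℝ) (k m n : ℕ) : Prop :=
  Alt (fun i => f i < 1 - c) (fun i => 1 + c < f i) k m n

lemma altF_mono (h : AltF f c (k + 1) m n) : AltF f c k m n := by
  obtain ⟨i, j, h1, h2⟩ := h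
  exact ⟨fun a => i a.castSucc, fun a => j a.castSucc, fun a => h1 _, fun a b hab =>
    h2 _ _ (Fin.castSucc_lt_castSucc_iff.2 hab)⟩

lemma ncard_ge {S : Set ℕ} (hS : S.Finite) (A : Finset (Fin k)) (p : Fin k → ℕ)
    (hp : ∀ a b, a < b → p a < p b) (hm : ∀ a ∈ A, p a ∈ S) : A.card ≤ S.ncard := by
  classical
  have hinj : Function.Injective p := by
    intro a b hab
    rcases lt_trichotomy a b with h | h | h
    · have := hp a b h
      omega
    · exact h
    · have := hp b a h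
      omega
  have h1 : (A.image p : Set ℕ) ⊆ S := by
    intro x hx
    rw [Finset.mem_coe, Finset.mem_image] at hx
    obtain ⟨a, ha, rfl⟩ := hx
    exact hm a ha
  have h2 := Set.ncard_le_ncard h1 hS
  rw [Set.ncard_coe_finset, Finset.card_image_of_injective _ hinj] at h2
  exact h2

lemma steps (hc : 0 < c) (hk : 1 ≤ k) (hm : 1 ≤ m) (g : ℕ → ℝ) (s t : Fin k → ℕ)
    (h1 : ∀ a, n ≤ s a ∧ s a < t a ∧ t a < n + m ∧ 2 * c ≤ g (t a) - g (s a))
    (h2 : ∀ a b, a < b → t a ≤ s b) :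
    k ≤ 2 * {p : ℕ | n ≤ p ∧ p + 1 < n + m ∧ c * (k / m) ≤ g (p + 1) - g p}.ncard := by
  classical
  have hmr : (0 : ℝ) < m := by exact_mod_cast hm
  have h3 := short_many (m := m) (n := n) hk s t (fun a => ⟨(h1 a).1, (h1 a).2.1, (h1 a).2.2.1.le⟩) h2
  have h4 : ∀ a : Fin k, ∃ p, s a ≤ p ∧ p < t a ∧
      ((t a - s a) * k ≤ 2 * m → c * (k / m) ≤ g (p + 1) - g p) := by
    intro a
    obtain ⟨e1, e2, e3, e4⟩ := h1 a
    by_cases h : (t a - s a) * k ≤ 2 * m
    · obtain ⟨p, g1, g2, g3⟩ := step_up (f := g) e2 (D := 2 * c) e4 (η := c * (k / m)) (by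
        have h5 : ((t a : ℝ) - s a) * k ≤ 2 * m := by
          have h6 : (((t a - s a) * k : ℕ) : ℝ) ≤ ((2 * m : ℕ) : ℝ) := by exact_mod_cast h
          push_cast [Nat.cast_sub e2.le] at h6
          exact h6
        have h7 : c * ((k : ℝ) / m) * (t a - s a) = c * (((t a : ℝ) - s a) * k / m) := by ring
        rw [h7]
        have h8 : ((t a : ℝ) - s a) * k / m ≤ 2 := by
          rw [div_le_iff₀ hmr]
          exact h5
        nlinarith)
      exact ⟨p, g1, g2, fun _ => g3⟩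
    · exact ⟨s a, le_rfl, e2, fun h' => absurd h' h⟩
  choose p hp using h4
  refine h3.trans (Nat.mul_le_mul_left 2 ?_)
  refine ncard_ge ((Set.finite_Icc n (n + m)).subset fun x hx => ?_) _ p (fun a b hab => ?_)
    (fun a ha => ?_)
  · obtain ⟨g1, g2, -⟩ := hx
    exact ⟨g1, by omega⟩
  · have := hp a
    have := hp b
    have := h2 a b hab
    omega
  · obtain ⟨g1, g2, g3⟩ := hp a
    obtain ⟨e1, e2, e3, -⟩ := h1 a
    exact ⟨by omega, by omega, g3 (Finset.mem_filter.1 ha).2⟩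

theorem up_steps (hc : 0 < c) (hk : 1 ≤ k) (hm : 1 ≤ m) (h : AltF f c (k + 1) m n) :
    k ≤ 2 * {p : ℕ | n ≤ p ∧ p + 1 < n + m ∧ c * (k / m) ≤ f (p + 1) - f p}.ncard := by
  obtain ⟨i, j, h1, h2⟩ := h
  refine steps hc hk hm f (fun a => i a.castSucc) (fun a => j a.castSucc) (fun a => ?_)
    (fun a b hab => (h2 _ _ (Fin.castSucc_lt_castSucc_iff.2 hab)).le)
  obtain ⟨g1, g2, g3, g4, g5⟩ := h1 a.castSucc
  exact ⟨g1, g2, g3, by linarith⟩

theorem down_steps (hc : 0 < c) (hk : 1 ≤ k) (hm : 1 ≤ m) (h : AltF f c (k + 1) m n) :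
    k ≤ 2 * {p : ℕ | n ≤ p ∧ p + 1 < n + m ∧ c * (k / m) ≤ f p - f (p + 1)}.ncard := by
  obtain ⟨i, j, h1, h2⟩ := h
  have h3 := steps hc hk hm (fun x => - f x) (n := n) (fun a => j a.castSucc) (fun a => i a.succ)
    (fun a => ?_) (fun a b hab => ?_)
  · have e : {p : ℕ | n ≤ p ∧ p + 1 < n + m ∧ c * (k / m) ≤ - f (p + 1) - - f p} =
        {p : ℕ | n ≤ p ∧ p + 1 < n + m ∧ c * (k / m) ≤ f p - f (p + 1)} := by
      ext p
      rw [Set.mem_ofPred_eq, Set.mem_ofPred_eq, show - f (p + 1) - - f p = f p - f (p + 1) by ring]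
    rw [e] at h3
    exact h3
  · obtain ⟨g1, g2, g3, g4, g5⟩ := h1 a.castSucc
    obtain ⟨e1, e2, e3, e4, e5⟩ := h1 a.succ
    have := h2 a.castSucc a.succ Fin.castSucc_lt_succ
    exact ⟨by omega, this, by omega, by linarith⟩
  · have h4 : i a.succ ≤ i b.castSucc := by
      rcases eq_or_lt_of_le (show a.succ ≤ b.castSucc by
        rw [Fin.le_def]
        rw [Fin.lt_def] at hab
        simp
        omega) with h5 | h5
      · rw [h5]
      · have := h2 _ _ h5
        have := h1 a.succ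
        omega
    have := h1 b.castSucc
    omega

theorem maxima (hc : 0 < c) (h : AltF f c (k + 1) m n) :
    k ≤ {p : ℕ | n < p ∧ p + 1 < n + m ∧ 1 + c < f p ∧ f (p - 1) ≤ f p ∧ f (p + 1) ≤ f p}.ncard := by
  obtain ⟨i, j, h1, h2⟩ := h
  have h3 : ∀ a : Fin k, ∃ p, i a.castSucc < p ∧ p < i a.succ ∧ 1 + c < f p ∧ f (p - 1) ≤ f p ∧
      f (p + 1) ≤ f p := by
    intro a
    obtain ⟨g1, g2, g3, g4, g5⟩ := h1 a.castSucc
    obtain ⟨e1, e2, e3, e4, e5⟩ := h1 a.succ
    exact local_max (u := 1 - c) (by linarith) g2 (h2 a.castSucc a.succ Fin.castSucc_lt_succ) g4 g5 e4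
  choose p hp using h3
  have h5 := ncard_ge (S := {p : ℕ | n < p ∧ p + 1 < n + m ∧ 1 + c < f p ∧ f (p - 1) ≤ f p ∧
    f (p + 1) ≤ f p}) ((Set.finite_Icc n (n + m)).subset fun x hx => ?_) Finset.univ p
    (fun a b hab => ?_) (fun a _ => ?_)
  · rwa [Finset.card_univ, Fintype.card_fin] at h5
  · obtain ⟨g1, g2, -⟩ := hx
    exact ⟨g1.le, by omega⟩
  · have g1 := hp a
    have g2 := hp b
    have h4 : i a.succ ≤ i b.castSucc := by
      rcases eq_or_lt_of_le (show a.succ ≤ b.castSucc by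
        rw [Fin.le_def]
        rw [Fin.lt_def] at hab
        simp
        omega) with h5 | h5
      · rw [h5]
      · have := h2 _ _ h5
        have := h1 a.succ
        omega
    omega
  · obtain ⟨g1, g2, g3, g4, g5⟩ := hp a
    have e1 := h1 a.castSucc
    have e2 := h1 a.succ
    exact ⟨by omega, by omega, g3, g4, g5⟩

theorem minima (hc : 0 < c) (h : AltF f c (k + 1) m n) :
    k ≤ {p : ℕ | n < p ∧ p + 1 < n + m ∧ f p < 1 - c ∧ f p ≤ f (p - 1) ∧ f p ≤ f (p + 1)}.ncard := by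
  obtain ⟨i, j, h1, h2⟩ := h
  have h3 : ∀ a : Fin k, ∃ p, j a.castSucc < p ∧ p < j a.succ ∧ f p < 1 - c ∧ f p ≤ f (p - 1) ∧
      f p ≤ f (p + 1) := by
    intro a
    obtain ⟨g1, g2, g3, g4, g5⟩ := h1 a.castSucc
    obtain ⟨e1, e2, e3, e4, e5⟩ := h1 a.succ
    obtain ⟨p, q1, q2, q3, q4, q5⟩ := local_max (f := fun x => - f x) (u := - (1 + c))
      (v := - (1 - c)) (by linarith) (h2 a.castSucc a.succ Fin.castSucc_lt_succ) e2
      (by show - f _ < _; linarith) (by show _ < - f _; linarith) (by show - f _ < _; linarith)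
    exact ⟨p, q1, q2, by linarith, by linarith, by linarith⟩
  choose p hp using h3
  have h5 := ncard_ge (S := {p : ℕ | n < p ∧ p + 1 < n + m ∧ f p < 1 - c ∧ f p ≤ f (p - 1) ∧
    f p ≤ f (p + 1)}) ((Set.finite_Icc n (n + m)).subset fun x hx => ?_) Finset.univ p
    (fun a b hab => ?_) (fun a _ => ?_)
  · rwa [Finset.card_univ, Fintype.card_fin] at h5
  · obtain ⟨g1, g2, -⟩ := hx
    exact ⟨g1.le, by omega⟩
  · have g1 := hp a
    have g2 := hp b
    have h4 : j a.succ ≤ j b.castSucc := by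
      rcases eq_or_lt_of_le (show a.succ ≤ b.castSucc by
        rw [Fin.le_def]
        rw [Fin.lt_def] at hab
        simp
        omega) with h5 | h5
      · rw [h5]
      · have := h2 _ _ h5
        have := h1 b.castSucc
        omega
    omega
  · obtain ⟨g1, g2, g3, g4, g5⟩ := hp a
    have e1 := h1 a.castSucc
    have e2 := h1 a.succ
    exact ⟨by omega, by omega, g3, g4, g5⟩

end Pool.Agent.V11270.GS
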