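import Mathlib

set_option autoImplicit false

/-!
# Finite differences of a sequence whose sums of consecutive terms fluctuate
-/

namespace Pool.Agent.V11270.GS

open Filter Finset

/-- the number of the `n ≤ N` with `P n` -/
noncomputable def cnt (P : ℕ → Prop) (N : ℕ) : ℕ := {n : ℕ | 1 ≤ n ∧ n ≤ N ∧ P n}.ncard

/-- positive lower density -/
def PP (P : ℕ → Prop) : Prop := ∃ p : ℝ, 0 < p ∧ ∀ᶠ N : ℕ in atTop, p * N ≤ (cnt P N : ℝ)

lemma cnt_fin (P : ℕ → Prop) (N : ℕ) : {n : ℕ | 1 ≤ n ∧ n ≤ N ∧ P n}.Finite :=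
  (Set.finite_Icc 1 N).subset fun _ hn => ⟨hn.1, hn.2.1⟩

lemma cnt_mono {P Q : ℕ → Prop} (N : ℕ) (h : ∀ n, 1 ≤ n → P n → Q n) : cnt P N ≤ cnt Q N :=
  Set.ncard_le_ncard (fun n hn => ⟨hn.1, hn.2.1, h n hn.1 hn.2.2⟩) (cnt_fin Q N)

lemma cnt_or (P Q : ℕ → Prop) (N : ℕ) : cnt (fun n => P n ∨ Q n) N ≤ cnt P N + cnt Q N := by
  refine le_trans (Set.ncard_le_ncard ?_ ((cnt_fin P N).union (cnt_fin Q N)))
    (Set.ncard_union_le _ _)
  rintro n ⟨h1, h2, h3 | h3⟩
  · exact Or.inl ⟨h1, h2, h3⟩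
  · exact Or.inr ⟨h1, h2, h3⟩

lemma cnt_shift (P : ℕ → Prop) (a N : ℕ) : cnt (fun n => P (n + a)) N ≤ cnt P (N + a) := by
  refine Set.ncard_le_ncard_of_injOn (fun n => n + a) ?_ ?_ (cnt_fin P (N + a))
  · rintro n ⟨h1, h2, h3⟩
    exact ⟨by omega, by omega, h3⟩
  · intro x _ y _ hxy
    have : x + a = y + a := hxy
    omega

lemma cnt_le_add (P : ℕ → Prop) (a N : ℕ) : cnt P (N + a) ≤ cnt P N + a := by
  have h1 : {n : ℕ | 1 ≤ n ∧ n ≤ N + a ∧ P n} ⊆ {n : ℕ | 1 ≤ n ∧ n ≤ N ∧ P n} ∪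
      ((Finset.Ioc N (N + a) : Finset ℕ) : Set ℕ) := by
    rintro n ⟨h1, h2, h3⟩
    rcases le_or_gt n N with h | h
    · exact Or.inl ⟨h1, h, h3⟩
    · exact Or.inr (by rw [Finset.coe_Ioc]; exact ⟨h, h2⟩)
  refine (Set.ncard_le_ncard h1 ((cnt_fin P N).union (Finset.finite_toSet _))).trans
    ((Set.ncard_union_le _ _).trans ?_)
  rw [Set.ncard_coe_finset, Nat.card_Ioc]
  unfold cnt
  omega

lemma cnt_mono_N (P : ℕ → Prop) {M N : ℕ} (h : M ≤ N) : cnt P M ≤ cnt P N :=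
  Set.ncard_le_ncard (fun _ hn => ⟨hn.1, hn.2.1.trans h, hn.2.2⟩) (cnt_fin P N)

lemma pp_mono {P Q : ℕ → Prop} (hP : PP P) (h : ∀ n, 1 ≤ n → P n → Q n) : PP Q := by
  obtain ⟨p, hp, h1⟩ := hP
  refine ⟨p, hp, ?_⟩
  filter_upwards [h1] with N h2
  exact h2.trans (by exact_mod_cast cnt_mono N h)

/-- a positive proportion of the `n` have a point of `P` at one of the shifts -/
lemma pp_shift {P : ℕ → Prop} {K : ℕ} (s : ℕ → ℕ) {S : ℕ} (hs : ∀ j < K, s j ≤ S)
    (h : PP (fun n => ∃ j < K, P (n + s j))) : PP P := by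
  classical
  obtain ⟨p, hp, h1⟩ := h
  have hK : 0 < K := by
    by_contra hK
    have hK0 : K = 0 := by omega
    subst hK0
    obtain ⟨N, h2, h3⟩ := (h1.and (eventually_gt_atTop 0)).exists
    have h4 : cnt (fun n => ∃ j < 0, P (n + s j)) N = 0 := by
      unfold cnt
      rw [Set.ncard_eq_zero (cnt_fin _ _)]
      ext n
      simp
    rw [h4] at h2
    have : (0 : ℝ) < N := by exact_mod_cast h3
    have : 0 < p * N := by positivity
    push_cast at h2
    linarith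
  have hKr : (0 : ℝ) < K := by exact_mod_cast hK
  have h2 : ∀ k N : ℕ, k ≤ K → cnt (fun n => ∃ j < k, P (n + s j)) N ≤ k * (cnt P N + S) := by
    intro k N
    induction k with
    | zero =>
      intro _
      have h4 : cnt (fun n => ∃ j < 0, P (n + s j)) N = 0 := by
        unfold cnt
        rw [Set.ncard_eq_zero (cnt_fin _ _)]
        ext n
        simp
      rw [h4]
      exact Nat.zero_le _
    | succ k ih =>
      intro hk
      have h3 : cnt (fun n => ∃ j < k + 1, P (n + s j)) N ≤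
          cnt (fun n => (∃ j < k, P (n + s j)) ∨ P (n + s k)) N := by
        apply cnt_mono
        rintro n - ⟨j, hj, hP⟩
        rcases Nat.lt_succ_iff_lt_or_eq.1 hj with h | h
        · exact Or.inl ⟨j, h, hP⟩
        · subst h
          exact Or.inr hP
      have h4 := cnt_or (fun n => ∃ j < k, P (n + s j)) (fun n => P (n + s k)) N
      have h5 := cnt_shift P (s k) N
      have h6 := cnt_mono_N P (show N + s k ≤ N + S by have := hs k (by omega); omega)
      have h7 := cnt_le_add P S N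
      have h8 := ih (by omega)
      calc cnt (fun n => ∃ j < k + 1, P (n + s j)) N ≤ k * (cnt P N + S) + (cnt P N + S) := by omega
        _ = (k + 1) * (cnt P N + S) := by ring
  refine ⟨p / (2 * K), by positivity, ?_⟩
  filter_upwards [h1, eventually_ge_atTop ⌈2 * K * S / p⌉₊] with N h3 h4
  have h5 : 2 * K * S / p ≤ N := (Nat.le_ceil _).trans (by exact_mod_cast h4)
  rw [div_le_iff₀ hp] at h5
  have h6 : (cnt (fun n => ∃ j < K, P (n + s j)) N : ℝ) ≤ K * (cnt P N + S) := by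
    exact_mod_cast h2 K N le_rfl
  rw [div_mul_eq_mul_div, div_le_iff₀ (by positivity)]
  nlinarith

/-- from small values of `v` to steps up -/
theorem step (v : ℕ → ℝ) {R : ℕ} {c : ℝ} (hc : 0 < c) (hv : PP (fun n => v n < -c))
    (hM : ∀ τ : ℝ, 0 < τ → ∃ K : ℕ, 1 ≤ K ∧ ∀ᶠ N : ℕ in atTop,
      (cnt (fun n => ∑ j ∈ range K, v (n + j * R) ≤ -(c / 2) * K) N : ℝ) ≤ τ * N) :
    ∃ c' : ℝ, 0 < c' ∧ PP (fun n => c' < v (n + R) - v n) := by
  obtain ⟨p, hp, h1⟩ := hv
  obtain ⟨K, hK, h2⟩ := hM (p / 2) (by positivity)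
  have hKr : (0 : ℝ) < K := by exact_mod_cast hK
  refine ⟨c / (2 * K), by positivity, ?_⟩
  apply pp_shift (K := K) (fun j => j * R) (S := K * R)
    (fun j hj => Nat.mul_le_mul_right _ hj.le)
  refine ⟨p / 2, by positivity, ?_⟩
  filter_upwards [h1, h2] with N h3 h4
  have h5 : cnt (fun n => v n < -c) N ≤
      cnt (fun n => (∃ j < K, c / (2 * K) < v (n + j * R + R) - v (n + j * R)) ∨
        ∑ j ∈ range K, v (n + j * R) ≤ -(c / 2) * K) N := by
    apply cnt_mono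
    intro n _ hn
    by_contra hcon
    push Not at hcon
    obtain ⟨g1, g2⟩ := hcon
    have g3 : ∀ j ≤ K, v (n + j * R) ≤ -c + j * (c / (2 * K)) := by
      intro j
      induction j with
      | zero =>
        intro _
        rw [Nat.zero_mul, Nat.cast_zero, zero_mul, add_zero, add_zero]
        exact hn.le
      | succ j ih =>
        intro hj
        have g4 := g1 j (by omega)
        have g5 := ih (by omega)
        have e : n + (j + 1) * R = n + j * R + R := by ring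
        rw [e]
        push_cast
        linarith
    have g6 : ∑ j ∈ range K, v (n + j * R) ≤ ∑ _j ∈ range K, (-(c / 2)) := by
      apply Finset.sum_le_sum
      intro j hj
      rw [Finset.mem_range] at hj
      have g7 := g3 j hj.le
      have g8 : (j : ℝ) * (c / (2 * K)) ≤ c / 2 := by
        rw [mul_div_assoc', div_le_div_iff₀ (by positivity) (by norm_num)]
        have : (j : ℝ) ≤ K := by exact_mod_cast hj.le
        nlinarith
      linarith
    rw [Finset.sum_const, Finset.card_range, nsmul_eq_mul] at g6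
    linarith
  have h6 := cnt_or (fun n => ∃ j < K, c / (2 * K) < v (n + j * R + R) - v (n + j * R))
    (fun n => ∑ j ∈ range K, v (n + j * R) ≤ -(c / 2) * K) N
  have h7 : (cnt (fun n => v n < -c) N : ℝ) ≤
      (cnt (fun n => ∃ j < K, c / (2 * K) < v (n + j * R + R) - v (n + j * R)) N : ℝ) +
      (cnt (fun n => ∑ j ∈ range K, v (n + j * R) ≤ -(c / 2) * K) N : ℝ) := by
    exact_mod_cast h5.trans h6
  linarith

/-- tightness -/
def Tight (v : ℕ → ℝ) : Prop := ∀ τ : ℝ, 0 < τ → ∃ B : ℝ, 0 < B ∧ ∀ᶠ N : ℕ in atTop,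
  (cnt (fun n => B ≤ |v n|) N : ℝ) ≤ τ * N

/-- two-sided -/
def TwoSided (v : ℕ → ℝ) : Prop := ∃ c : ℝ, 0 < c ∧ PP (fun n => c < v n) ∧ PP (fun n => v n < -c)

lemma cnt_two (v : ℕ → ℝ) {τ B : ℝ} (hτ : 0 < τ) (S : ℕ)
    (h : ∀ᶠ N : ℕ in atTop, (cnt (fun n => B ≤ |v n|) N : ℝ) ≤ τ * N) :
    ∀ᶠ N : ℕ in atTop, (cnt (fun n => 2 * B ≤ |v (n + S) - v n|) N : ℝ) ≤ 3 * τ * N := by
  obtain ⟨N0, hN0⟩ := eventually_atTop.1 h
  filter_upwards [eventually_ge_atTop (N0 + S)] with N hN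
  have h1 := hN0 N (by omega)
  have h2 := hN0 (N + S) (by omega)
  have h3 : cnt (fun n => 2 * B ≤ |v (n + S) - v n|) N ≤
      cnt (fun n => B ≤ |v (n + S)| ∨ B ≤ |v n|) N := by
    apply cnt_mono
    intro n _ hn
    by_contra hcon
    push Not at hcon
    have := abs_sub (v (n + S)) (v n)
    linarith [hcon.1, hcon.2]
  have h4 := cnt_or (fun n => B ≤ |v (n + S)|) (fun n => B ≤ |v n|) N
  have h5 := cnt_shift (fun n => B ≤ |v n|) S N
  have h6 : (cnt (fun n => 2 * B ≤ |v (n + S) - v n|) N : ℝ) ≤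
      (cnt (fun n => B ≤ |v n|) (N + S) : ℝ) + (cnt (fun n => B ≤ |v n|) N : ℝ) := by
    have : cnt (fun n => 2 * B ≤ |v (n + S) - v n|) N ≤
      cnt (fun n => B ≤ |v n|) (N + S) + cnt (fun n => B ≤ |v n|) N := by omega
    exact_mod_cast this
  have h7 : ((N + S : ℕ) : ℝ) ≤ 2 * N := by
    have : N + S ≤ 2 * N := by omega
    exact_mod_cast this
  have h8 : τ * ((N + S : ℕ) : ℝ) ≤ τ * (2 * N) := mul_le_mul_of_nonneg_left h7 hτ.le
  linarith

lemma tight_diff {v : ℕ → ℝ} (hv : Tight v) (R : ℕ) : Tight (fun n => v (n + R) - v n) := by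
  intro τ hτ
  obtain ⟨B, hB, h⟩ := hv (τ / 3) (by positivity)
  refine ⟨2 * B, by positivity, ?_⟩
  filter_upwards [cnt_two v (by positivity) R h] with N h1
  linarith

lemma sum_tel (w : ℕ → ℝ) (R n K : ℕ) :
    ∑ j ∈ range K, (w (n + j * R + R) - w (n + j * R)) = w (n + K * R) - w n := by
  have h := Finset.sum_range_sub (fun j => w (n + j * R)) K
  rw [Nat.zero_mul, add_zero] at h
  rw [← h]
  refine Finset.sum_congr rfl fun j _ => ?_
  have e : n + (j + 1) * R = n + j * R + R := by ring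
  rw [e]

/-- averages of differences -/
lemma avg_diff {w : ℕ → ℝ} (hw : Tight w) (R : ℕ) {c : ℝ} (hc : 0 < c) (τ : ℝ) (hτ : 0 < τ) :
    ∃ K : ℕ, 1 ≤ K ∧ ∀ᶠ N : ℕ in atTop,
      (cnt (fun n => ∑ j ∈ range K, (w (n + j * R + R) - w (n + j * R)) ≤ -(c / 2) * K) N : ℝ) ≤
        τ * N := by
  obtain ⟨B, hB, h⟩ := hw (τ / 3) (by positivity)
  obtain ⟨K, hK⟩ := exists_nat_ge (4 * B / c)
  have hKr : (0 : ℝ) < K := lt_of_lt_of_le (by positivity) hK
  have hK1 : 1 ≤ K := by exact_mod_cast hKr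
  refine ⟨K, hK1, ?_⟩
  filter_upwards [cnt_two w (by positivity) (K * R) h] with N h1
  have h2 : cnt (fun n => ∑ j ∈ range K, (w (n + j * R + R) - w (n + j * R)) ≤ -(c / 2) * K) N ≤
      cnt (fun n => 2 * B ≤ |w (n + K * R) - w n|) N := by
    apply cnt_mono
    intro n _ hn
    rw [sum_tel] at hn
    rw [div_le_iff₀ hc] at hK
    have h3 := neg_abs_le (w (n + K * R) - w n)
    have h4 : c / 2 * K ≤ |w (n + K * R) - w n| := by linarith
    linarith
  have h3 : (cnt (fun n => ∑ j ∈ range K, (w (n + j * R + R) - w (n + j * R)) ≤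
      -(c / 2) * K) N : ℝ) ≤ (cnt (fun n => 2 * B ≤ |w (n + K * R) - w n|) N : ℝ) := by
    exact_mod_cast h2
  linarith

lemma two_diff {w : ℕ → ℝ} (hw : Tight w) (R : ℕ)
    (h : TwoSided (fun n => w (n + R) - w n)) :
    TwoSided (fun n => (w (n + R + R) - w (n + R)) - (w (n + R) - w n)) := by
  obtain ⟨c, hc, h1, h2⟩ := h
  obtain ⟨c1, hc1, h3⟩ := step (fun n => w (n + R) - w n) (R := R) hc h2
    (fun τ hτ => avg_diff hw R hc τ hτ)
  have hw' : Tight (fun n => - w n) := by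
    intro τ hτ
    obtain ⟨B, hB, h4⟩ := hw τ hτ
    refine ⟨B, hB, ?_⟩
    simp_rw [abs_neg]
    exact h4
  obtain ⟨c2, hc2, h4⟩ := step (fun n => - w (n + R) - - w n) (R := R) hc
    (pp_mono h1 fun n _ hn => by linarith) (fun τ hτ => avg_diff hw' R hc τ hτ)
  refine ⟨min c1 c2, lt_min hc1 hc2, pp_mono h3 fun n _ hn => ?_, pp_mono h4 fun n _ hn => ?_⟩
  · exact (min_le_left _ _).trans_lt hn
  · have := min_le_right c1 c2
    linarith

/-- iterated differences with lags in a list -/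
def DD : List ℕ → (ℕ → ℝ) → ℕ → ℝ
  | [], u => u
  | h :: l, u => fun n => DD l u (n + h) - DD l u n

lemma DD_comm (l : List ℕ) (u : ℕ → ℝ) (h : ℕ) :
    DD l (fun n => u (n + h) - u n) = fun n => DD l u (n + h) - DD l u n := by
  induction l with
  | nil => rfl
  | cons x t ih =>
    funext n
    show DD t (fun n => u (n + h) - u n) (n + x) - DD t (fun n => u (n + h) - u n) n =
      (DD t u (n + h + x) - DD t u (n + h)) - (DD t u (n + x) - DD t u n)
    rw [ih]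
    show (DD t u (n + x + h) - DD t u (n + x)) - (DD t u (n + h) - DD t u n) = _
    rw [show n + x + h = n + h + x by ring]
    ring

lemma DD_sum (l : List ℕ) (u : ℕ → ℝ) (s : ℕ → ℕ) (a : ℕ) :
    DD l (fun n => ∑ i ∈ range a, u (n + s i)) = fun n => ∑ i ∈ range a, DD l u (n + s i) := by
  induction l with
  | nil => rfl
  | cons x t ih =>
    funext n
    show DD t (fun n => ∑ i ∈ range a, u (n + s i)) (n + x) -
      DD t (fun n => ∑ i ∈ range a, u (n + s i)) n = _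
    rw [ih]
    show ∑ i ∈ range a, DD t u (n + x + s i) - ∑ i ∈ range a, DD t u (n + s i) =
      ∑ i ∈ range a, (DD t u (n + s i + x) - DD t u (n + s i))
    rw [Finset.sum_sub_distrib]
    congr 1
    refine Finset.sum_congr rfl fun i _ => ?_
    rw [show n + x + s i = n + s i + x by ring]

lemma DD_neg (l : List ℕ) (u : ℕ → ℝ) : DD l (fun n => - u n) = fun n => - DD l u n := by
  induction l with
  | nil => rfl
  | cons x t ih =>
    funext n
    show DD t (fun n => - u n) (n + x) - DD t (fun n => - u n) n = -(DD t u (n + x) - DD t u n)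
    rw [ih]
    ring

/-- positive on a positive proportion -/
def Pos (v : ℕ → ℝ) : Prop := ∃ c : ℝ, 0 < c ∧ PP (fun n => c < v n)

lemma pos_of_sum {u : ℕ → ℝ} {a : ℕ} (s : ℕ → ℕ) (ha : 1 ≤ a)
    (h : Pos (fun n => ∑ i ∈ range a, u (n + s i))) : Pos u := by
  obtain ⟨c, hc, h1⟩ := h
  have har : (0 : ℝ) < a := by exact_mod_cast ha
  refine ⟨c / a, by positivity, ?_⟩
  obtain ⟨S, hS⟩ : ∃ S, ∀ j < a, s j ≤ S :=
    ⟨∑ j ∈ range a, s j, fun j hj => Finset.single_le_sum (f := s) (fun _ _ => Nat.zero_le _)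
      (Finset.mem_range.2 hj)⟩
  apply pp_shift (K := a) s hS
  refine pp_mono h1 fun n _ hn => ?_
  by_contra hcon
  push Not at hcon
  have h2 : ∑ i ∈ range a, u (n + s i) ≤ ∑ _i ∈ range a, c / a :=
    Finset.sum_le_sum fun i hi => hcon i (Finset.mem_range.1 hi)
  rw [Finset.sum_const, Finset.card_range, nsmul_eq_mul, mul_div_cancel₀ _ har.ne'] at h2
  linarith

lemma pos_lag {u : ℕ → ℝ} {a h : ℕ} (ha : 1 ≤ a)
    (hp : Pos (fun n => u (n + a * h) - u n)) : Pos (fun n => u (n + h) - u n) := by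
  apply pos_of_sum (a := a) (fun i => i * h) ha
  have e : (fun n => ∑ i ∈ range a, (u (n + i * h + h) - u (n + i * h))) =
      fun n => u (n + a * h) - u n := by
    funext n
    exact sum_tel u h n a
  rw [e]
  exact hp

lemma pos_list {R : ℕ} (hR : 1 ≤ R) (l : List ℕ) (hl : ∀ x ∈ l, x ∣ R) (u : ℕ → ℝ)
    (h : Pos (DD (List.replicate l.length R) u)) : Pos (DD l u) := by
  induction l generalizing u with
  | nil => exact h
  | cons x t ih =>
    have h1 : Pos (DD t (fun n => u (n + R) - u n)) := by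
      apply ih (fun y hy => hl y (List.mem_cons_of_mem _ hy))
      rw [DD_comm]
      exact h
    rw [DD_comm] at h1
    obtain ⟨a, ha⟩ := hl x List.mem_cons_self
    have ha1 : 1 ≤ a := by
      rcases Nat.eq_zero_or_pos a with h0 | h0
      · rw [h0, Nat.mul_zero] at ha
        omega
      · exact h0
    show Pos (fun n => DD t u (n + x) - DD t u n)
    apply pos_lag ha1
    rw [show a * x = R by rw [ha]; ring]
    exact h1

/-- sums of `h` consecutive terms -/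
noncomputable def Sm (δ : ℕ → ℝ) (h n : ℕ) : ℝ := ∑ i ∈ range h, δ (n + i)

lemma Sm_mul (δ : ℕ → ℝ) (a h : ℕ) : (fun n => Sm δ (a * h) n) =
    fun n => ∑ i ∈ range a, Sm δ h (n + i * h) := by
  funext n
  induction a with
  | zero => simp [Sm]
  | succ a ih =>
    rw [Finset.sum_range_succ, ← ih]
    unfold Sm
    rw [show (a + 1) * h = a * h + h by ring, Finset.sum_range_add]
    congr 1
    refine Finset.sum_congr rfl fun i _ => ?_
    rw [add_assoc]

/-- the hypotheses on the sequence -/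
structure Fluct (δ : ℕ → ℝ) : Prop where
  nonneg : ∃ n0 : ℕ, ∀ n, n0 ≤ n → 0 ≤ δ n
  mean : ∀ ε : ℝ, 0 < ε → ∀ τ : ℝ, 0 < τ → ∃ M0 : ℕ, ∀ M : ℕ, M0 ≤ M → ∀ᶠ N : ℕ in atTop,
    (cnt (fun n => ε * M ≤ |Sm δ M n - M|) N : ℝ) ≤ τ * N
  two : ∀ R : ℕ, 1 ≤ R → TwoSided (fun n => Sm δ R n - R)

lemma tight_Sm {δ : ℕ → ℝ} (H : Fluct δ) (R : ℕ) : Tight (Sm δ R) := by
  intro τ hτ
  obtain ⟨n0, hn0⟩ := H.nonneg
  obtain ⟨M0, h0⟩ := H.mean 1 one_pos (τ / 2) (by positivity)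
  obtain ⟨M, hM⟩ : ∃ M : ℕ, M = M0 + R + 1 := ⟨_, rfl⟩
  have h1 := h0 M (by omega)
  have hMr : (0 : ℝ) < M := by
    have : 0 < M := by omega
    exact_mod_cast this
  refine ⟨2 * M, by positivity, ?_⟩
  filter_upwards [h1, eventually_ge_atTop ⌈2 * n0 / τ⌉₊] with N h2 h3
  have h4 : cnt (fun n => 2 * (M : ℝ) ≤ |Sm δ R n|) N ≤
      cnt (fun n => n ≤ n0 ∨ 1 * (M : ℝ) ≤ |Sm δ M n - M|) N := by
    apply cnt_mono
    intro n _ hn
    rcases le_or_gt n n0 with h | h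
    · exact Or.inl h
    · right
      have h5 : 0 ≤ Sm δ R n := Finset.sum_nonneg fun i _ => hn0 _ (by omega)
      have h6 : Sm δ R n ≤ Sm δ M n := by
        unfold Sm
        apply Finset.sum_le_sum_of_subset_of_nonneg
        · exact Finset.range_mono (by omega)
        · intro i _ _
          exact hn0 _ (by omega)
      rw [abs_of_nonneg h5] at hn
      have := le_abs_self (Sm δ M n - M)
      linarith
  have h5 := cnt_or (fun n => n ≤ n0) (fun n => 1 * (M : ℝ) ≤ |Sm δ M n - M|) N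
  have h6 : cnt (fun n => n ≤ n0) N ≤ n0 := by
    have h7 : {n : ℕ | 1 ≤ n ∧ n ≤ N ∧ n ≤ n0} ⊆ ((Finset.Icc 1 n0 : Finset ℕ) : Set ℕ) := by
      rintro n ⟨g1, g2, g3⟩
      rw [Finset.coe_Icc]
      exact ⟨g1, g3⟩
    have h8 := Set.ncard_le_ncard h7 (Finset.finite_toSet _)
    rw [Set.ncard_coe_finset, Nat.card_Icc] at h8
    exact h8.trans (by omega)
  have h7 : 2 * n0 / τ ≤ N := (Nat.le_ceil _).trans (by exact_mod_cast h3)
  rw [div_le_iff₀ hτ] at h7
  have h8 : (cnt (fun n => 2 * (M : ℝ) ≤ |Sm δ R n|) N : ℝ) ≤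
      n0 + (cnt (fun n => 1 * (M : ℝ) ≤ |Sm δ M n - M|) N : ℝ) := by
    have : cnt (fun n => 2 * (M : ℝ) ≤ |Sm δ R n|) N ≤
      n0 + cnt (fun n => 1 * (M : ℝ) ≤ |Sm δ M n - M|) N := by omega
    exact_mod_cast this
  linarith

lemma avg_zero {δ : ℕ → ℝ} (H : Fluct δ) {R : ℕ} (hR : 1 ≤ R) {c : ℝ} (hc : 0 < c) (τ : ℝ)
    (hτ : 0 < τ) : ∃ K : ℕ, 1 ≤ K ∧ ∀ᶠ N : ℕ in atTop,
      (cnt (fun n => c / 2 * K ≤ |∑ j ∈ range K, (Sm δ R (n + j * R) - R)|) N : ℝ) ≤ τ * N := by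
  have hRr : (0 : ℝ) < R := by exact_mod_cast hR
  obtain ⟨M0, h0⟩ := H.mean (c / (2 * R)) (by positivity) τ hτ
  refine ⟨M0 + 1, by omega, ?_⟩
  filter_upwards [h0 ((M0 + 1) * R) (by nlinarith)] with N h1
  refine le_trans ?_ h1
  have h2 : cnt (fun n => c / 2 * ((M0 + 1 : ℕ) : ℝ) ≤
      |∑ j ∈ range (M0 + 1), (Sm δ R (n + j * R) - R)|) N ≤
      cnt (fun n => c / (2 * R) * (((M0 + 1) * R : ℕ) : ℝ) ≤
        |Sm δ ((M0 + 1) * R) n - (((M0 + 1) * R : ℕ) : ℝ)|) N := by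
    apply cnt_mono
    intro n _ hn
    have e1 : Sm δ ((M0 + 1) * R) n = ∑ j ∈ range (M0 + 1), Sm δ R (n + j * R) :=
      congrFun (Sm_mul δ (M0 + 1) R) n
    rw [Finset.sum_sub_distrib, Finset.sum_const, Finset.card_range, nsmul_eq_mul, ← e1] at hn
    have e2 : c / (2 * R) * (((M0 + 1) * R : ℕ) : ℝ) = c / 2 * ((M0 + 1 : ℕ) : ℝ) := by
      push_cast
      field_simp
    rw [e2, Nat.cast_mul]
    exact hn
  exact_mod_cast h2

/-- equal lags -/
theorem equal_lags {δ : ℕ → ℝ} (H : Fluct δ) {R : ℕ} (hR : 1 ≤ R) (k : ℕ) :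
    Tight (DD (List.replicate k R) (Sm δ R)) ∧ TwoSided (DD (List.replicate (k + 1) R) (Sm δ R)) := by
  induction k with
  | zero =>
    refine ⟨tight_Sm H R, ?_⟩
    obtain ⟨c, hc, h1, h2⟩ := H.two R hR
    obtain ⟨c1, hc1, h3⟩ := step (fun n => Sm δ R n - R) (R := R) hc h2 (fun τ hτ => by
      obtain ⟨K, hK, h4⟩ := avg_zero H hR hc τ hτ
      refine ⟨K, hK, ?_⟩
      filter_upwards [h4] with N h5
      refine le_trans ?_ h5
      exact_mod_cast cnt_mono N fun n _ hn => by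
        have := neg_abs_le (∑ j ∈ range K, (Sm δ R (n + j * R) - R))
        linarith)
    obtain ⟨c2, hc2, h4⟩ := step (fun n => -(Sm δ R n - R)) (R := R) hc
      (pp_mono h1 fun n _ hn => by linarith) (fun τ hτ => by
      obtain ⟨K, hK, h4⟩ := avg_zero H hR hc τ hτ
      refine ⟨K, hK, ?_⟩
      filter_upwards [h4] with N h5
      refine le_trans ?_ h5
      exact_mod_cast cnt_mono N fun n _ hn => by
        rw [Finset.sum_neg_distrib] at hn
        have := le_abs_self (∑ j ∈ range K, (Sm δ R (n + j * R) - R))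
        linarith)
    refine ⟨min c1 c2, lt_min hc1 hc2, pp_mono h3 fun n _ hn => ?_, pp_mono h4 fun n _ hn => ?_⟩
    · show min c1 c2 < Sm δ R (n + R) - Sm δ R n
      have := min_le_left c1 c2
      linarith
    · show Sm δ R (n + R) - Sm δ R n < - min c1 c2
      have := min_le_right c1 c2
      linarith
  | succ k ih =>
    obtain ⟨h1, h2⟩ := ih
    exact ⟨tight_diff h1 R, two_diff h1 R h2⟩

/-- **all finite differences** -/
theorem all_diff {δ : ℕ → ℝ} (H : Fluct δ) {h : ℕ} (hh : 1 ≤ h) (l : List ℕ) (hl : l ≠ [])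
    (hl1 : ∀ x ∈ l, 1 ≤ x) : TwoSided (DD l (Sm δ h)) := by
  obtain ⟨R, hR⟩ : ∃ R, R = h * l.prod := ⟨_, rfl⟩
  have hlp : 1 ≤ l.prod := Nat.one_le_iff_ne_zero.2 (List.prod_ne_zero fun h0 => by
    have := hl1 0 h0
    omega)
  have hR1 : 1 ≤ R := by
    rw [hR]
    exact Nat.mul_pos hh hlp
  have hdvd : ∀ x ∈ l, x ∣ R := fun x hx => by
    rw [hR]
    exact (List.dvd_prod hx).mul_left _
  obtain ⟨k, hk⟩ : ∃ k, l.length = k + 1 :=
    Nat.exists_eq_succ_of_ne_zero (by rwa [ne_eq, List.length_eq_zero_iff])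
  have h1 := (equal_lags H hR1 k).2
  rw [← hk] at h1
  obtain ⟨c, hc, h2, h3⟩ := h1
  have e0 : R = l.prod * h := by rw [hR]; ring
  have e1 : Sm δ R = fun n => ∑ i ∈ range l.prod, Sm δ h (n + i * h) := by
    rw [e0]
    exact Sm_mul δ l.prod h
  have h4 : Pos (DD l (Sm δ h)) := by
    apply pos_of_sum (a := l.prod) (fun i => i * h) hlp
    rw [← DD_sum l (Sm δ h) (fun i => i * h) l.prod, ← e1]
    exact pos_list hR1 l hdvd _ ⟨c, hc, h2⟩
  have h5 : Pos (fun n => - DD l (Sm δ h) n) := by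
    apply pos_of_sum (a := l.prod) (fun i => i * h) hlp
    have e2 : (fun n => ∑ i ∈ range l.prod, - DD l (Sm δ h) (n + i * h)) =
        DD l (fun n => - Sm δ R n) := by
      rw [DD_neg, e1, DD_sum l (Sm δ h) (fun i => i * h) l.prod]
      funext n
      rw [Finset.sum_neg_distrib]
    rw [e2]
    apply pos_list hR1 l hdvd
    rw [DD_neg]
    exact ⟨c, hc, pp_mono h3 fun n _ hn => by linarith⟩
  obtain ⟨c1, hc1, h6⟩ := h4
  obtain ⟨c2, hc2, h7⟩ := h5
  refine ⟨min c1 c2, lt_min hc1 hc2, pp_mono h6 fun n _ hn => ?_, pp_mono h7 fun n _ hn => ?_⟩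
  · exact (min_le_left _ _).trans_lt hn
  · have := min_le_right c1 c2
    linarith

end Pool.Agent.V11270.GS
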