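import Mathlib
import Pool.Agent.V11270.GS.Diff

set_option autoImplicit false

/-!
# Linear forms in consecutive terms of a fluctuating sequence lie on both sides of their mean
-/

namespace Pool.Agent.V11270.GS

open Filter Finset
open scoped Classical

lemma cnt_card (P : ℕ → Prop) (N : ℕ) : cnt P N = ((Finset.Icc 1 N).filter P).card := by
  unfold cnt
  rw [← Set.ncard_coe_finset]
  congr 1
  ext n
  simp [and_assoc]

lemma cnt_ge_shift (P : ℕ → Prop) (j N : ℕ) : cnt P N ≤ cnt (fun n => P (n + j)) N + j := by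
  have h1 : {n : ℕ | 1 ≤ n ∧ n ≤ N ∧ P n} ⊆ ((Finset.Icc 1 j : Finset ℕ) : Set ℕ) ∪
      (fun n => n + j) '' {n : ℕ | 1 ≤ n ∧ n ≤ N ∧ P (n + j)} := by
    rintro n ⟨h1, h2, h3⟩
    rcases le_or_gt n j with h | h
    · left
      rw [Finset.coe_Icc]
      exact ⟨h1, h⟩
    · right
      refine ⟨n - j, ⟨by omega, by omega, ?_⟩, by
        show n - j + j = n
        omega⟩
      rw [Nat.sub_add_cancel h.le]
      exact h3
  have h2 := Set.ncard_le_ncard h1 ((Finset.finite_toSet _).union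
    ((cnt_fin (fun n => P (n + j)) N).image _))
  refine h2.trans ((Set.ncard_union_le _ _).trans ?_)
  rw [Set.ncard_coe_finset, Nat.card_Icc]
  have h3 : ((fun n => n + j) '' {n : ℕ | 1 ≤ n ∧ n ≤ N ∧ P (n + j)}).ncard ≤
      cnt (fun n => P (n + j)) N := Set.ncard_image_le (cnt_fin (fun n => P (n + j)) N)
  omega

lemma double (P : ℕ → Prop) (K N : ℕ) :
    ∑ n ∈ Finset.Icc 1 N, ((range K).filter (fun j => P (n + j))).card =
      ∑ j ∈ range K, cnt (fun n => P (n + j)) N := by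
  have h1 : ∀ n ∈ Finset.Icc 1 N, ((range K).filter (fun j => P (n + j))).card =
      ∑ j ∈ range K, if P (n + j) then 1 else 0 := fun n _ => Finset.card_filter _ _
  have h2 : ∀ j ∈ range K, cnt (fun n => P (n + j)) N =
      ∑ n ∈ Finset.Icc 1 N, if P (n + j) then 1 else 0 := fun j _ => by
    rw [cnt_card, Finset.card_filter]
  rw [Finset.sum_congr rfl h1, Finset.sum_congr rfl h2, Finset.sum_comm]

/-- the linear form -/
noncomputable def LF (δ : ℕ → ℝ) {k : ℕ} (a : Fin k → ℝ) (n : ℕ) : ℝ := ∑ j, a j * δ (n + j)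

lemma Sm_add (δ : ℕ → ℝ) (a b n : ℕ) : Sm δ (a + b) n = Sm δ a n + Sm δ b (n + a) := by
  unfold Sm
  rw [Finset.sum_range_add]
  congr 1
  refine Finset.sum_congr rfl fun i _ => ?_
  rw [add_assoc]

lemma sum_LF (δ : ℕ → ℝ) {k : ℕ} (a : Fin k → ℝ) (n K : ℕ) :
    ∑ j ∈ range K, (LF δ a (n + j) - ∑ l, a l) =
      ∑ l, a l * (Sm δ l (n + K) - Sm δ l n) + (∑ l, a l) * (Sm δ K n - K) := by
  rw [Finset.sum_sub_distrib, Finset.sum_const, Finset.card_range, nsmul_eq_mul]
  have h1 : ∑ j ∈ range K, LF δ a (n + j) = ∑ l, a l * Sm δ K (n + l) := by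
    unfold LF Sm
    rw [Finset.sum_comm]
    refine Finset.sum_congr rfl fun l _ => ?_
    rw [Finset.mul_sum]
    refine Finset.sum_congr rfl fun j _ => ?_
    rw [show n + j + (l : ℕ) = n + l + j by ring]
  have h2 : ∀ l : Fin k, Sm δ K (n + l) = Sm δ K n + (Sm δ l (n + K) - Sm δ l n) := by
    intro l
    have e1 := Sm_add δ l K n
    have e2 := Sm_add δ K l n
    rw [add_comm (l : ℕ) K] at e1
    linarith
  rw [h1, Finset.sum_congr rfl fun l _ => by rw [h2 l, mul_add], Finset.sum_add_distrib,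
    ← Finset.sum_mul]
  ring

lemma Sm_le_of {δ : ℕ → ℝ} {n0 : ℕ} (hn0 : ∀ n, n0 ≤ n → 0 ≤ δ n) {l k n : ℕ} (hl : l ≤ k)
    (hn : n0 ≤ n) : 0 ≤ Sm δ l n ∧ Sm δ l n ≤ Sm δ k n := by
  constructor
  · exact Finset.sum_nonneg fun i _ => hn0 _ (by omega)
  · unfold Sm
    exact Finset.sum_le_sum_of_subset_of_nonneg (Finset.range_mono hl) fun i _ _ => hn0 _ (by omega)

/-- nondegeneracy of all forms -/
def ND (δ : ℕ → ℝ) (k : ℕ) : Prop := ∃ ε : ℝ, 0 < ε ∧ ∀ᶠ N : ℕ in atTop,
  ∀ a : Fin k → ℝ, (∃ j, 1 ≤ |a j|) → ∀ b : ℝ,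
    ε * N ≤ (cnt (fun n => ε ≤ |LF δ a n - b|) N : ℝ)

theorem one_side {δ : ℕ → ℝ} (H : Fluct δ) {k : ℕ} (hND : ND δ k) :
    ∃ c : ℝ, 0 < c ∧ ∃ p : ℝ, 0 < p ∧ ∀ᶠ N : ℕ in atTop, ∀ a : Fin k → ℝ,
      (∃ j, 1 ≤ |a j|) → (∀ j, |a j| ≤ 1) →
        p * N ≤ (cnt (fun n => ∑ l, a l + c < LF δ a n) N : ℝ) := by
  obtain ⟨ε, hε, hN1⟩ := hND
  obtain ⟨n0, hn0⟩ := H.nonneg
  obtain ⟨B, hB, hBt⟩ := tight_Sm H k (ε / 16) (by positivity)
  obtain ⟨η, hη⟩ : ∃ η : ℝ, η = ε ^ 2 / (16 * (k + 1)) := ⟨_, rfl⟩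
  have hηpos : 0 < η := by
    rw [hη]
    positivity
  obtain ⟨M0, hM0⟩ := H.mean η hηpos (ε / 16) (by positivity)
  obtain ⟨K0, hK0⟩ := exists_nat_ge (32 * (k + 1) * B / ε ^ 2)
  obtain ⟨K, hK⟩ : ∃ K : ℕ, K = K0 + M0 + 1 := ⟨_, rfl⟩
  have hKr : (K0 : ℝ) + 1 ≤ K := by
    rw [hK]
    push_cast
    have : (0 : ℝ) ≤ M0 := Nat.cast_nonneg _
    linarith
  have hKpos : (0 : ℝ) < K := by
    have : (0 : ℝ) ≤ K0 := Nat.cast_nonneg _
    linarith
  have hKB : 2 * (k + 1) * B ≤ ε ^ 2 / 16 * K := by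
    rw [div_le_iff₀ (by positivity)] at hK0
    have h1 : (K0 : ℝ) * ε ^ 2 ≤ K * ε ^ 2 := mul_le_mul_of_nonneg_right (by linarith) (by positivity)
    linarith
  refine ⟨ε ^ 2 / 16, by positivity, ε / (8 * K), by positivity, ?_⟩
  filter_upwards [hN1, hBt, hM0 K (by omega), eventually_ge_atTop ⌈8 * (n0 + 2 * K + K * K : ℝ) / ε⌉₊,
    eventually_gt_atTop 0] with N g1 g2 g3 g4 g5 a ha1 ha2
  have hNpos : (0 : ℝ) < N := by exact_mod_cast g5
  have g4' : 8 * (n0 + 2 * K + K * K : ℝ) ≤ ε * N := by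
    have : 8 * (n0 + 2 * K + K * K : ℝ) / ε ≤ N := (Nat.le_ceil _).trans (by exact_mod_cast g4)
    rw [div_le_iff₀ hε] at this
    linarith
  by_contra hcon
  push Not at hcon
  obtain ⟨σ, hσ⟩ : ∃ σ : ℝ, σ = ∑ l, a l := ⟨_, rfl⟩
  have hσk : |σ| ≤ k := by
    rw [hσ]
    refine (Finset.abs_sum_le_sum_abs _ _).trans ((Finset.sum_le_sum fun l _ => ha2 l).trans ?_)
    rw [Finset.sum_const, Finset.card_univ, Fintype.card_fin, nsmul_eq_mul, mul_one]
  obtain ⟨Q, hQ⟩ : ∃ Q : ℕ → Prop, Q = fun n => ε ≤ |LF δ a n - σ| := ⟨_, rfl⟩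
  obtain ⟨U, hU⟩ : ∃ U : ℕ → Prop, U = fun n => ∑ l, a l + ε ^ 2 / 16 < LF δ a n := ⟨_, rfl⟩
  obtain ⟨A, hA⟩ : ∃ A : ℕ → Prop, A = fun n => B ≤ |Sm δ k n| := ⟨_, rfl⟩
  obtain ⟨E, hE⟩ : ∃ E : ℕ → Prop, E = fun n => η * K ≤ |Sm δ K n - K| := ⟨_, rfl⟩
  have hQc : ε * N ≤ (cnt Q N : ℝ) := by
    rw [hQ]
    exact g1 a ha1 σ
  have hAc : (cnt A N : ℝ) ≤ ε / 16 * N := by
    rw [hA]
    exact g2
  have hEc : (cnt E N : ℝ) ≤ ε / 16 * N := by
    rw [hE]
    exact g3
  have hUc : (cnt U N : ℝ) < ε / (8 * K) * N := by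
    rw [hU]
    exact hcon
  obtain ⟨Bad, hBad⟩ : ∃ Bad : ℕ → Prop, Bad = fun n => n ≤ n0 ∨ (A n ∨ (A (n + K) ∨
    (E n ∨ ∃ j < K, U (n + j)))) := ⟨_, rfl⟩
  -- pointwise bound
  have hpt : ∀ n ∈ Finset.Icc 1 N, (((range K).filter (fun j => Q (n + j))).card : ℝ) ≤
      ε / 4 * K + (if Bad n then (K : ℝ) else 0) := by
    intro n _
    by_cases hb : Bad n
    · rw [if_pos hb]
      have h1 : (((range K).filter (fun j => Q (n + j))).card : ℝ) ≤ K := by
        have := Finset.card_filter_le (range K) (fun j => Q (n + j))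
        rw [Finset.card_range] at this
        exact_mod_cast this
      have : 0 ≤ ε / 4 * K := by positivity
      linarith
    · rw [if_neg hb, add_zero]
      rw [hBad] at hb
      simp only at hb
      push Not at hb
      obtain ⟨b1, b2, b3, b4, b5⟩ := hb
      rw [hA] at b2 b3
      simp only [not_le] at b2 b3
      rw [hE] at b4
      simp only [not_le] at b4
      have b5' : ∀ j < K, LF δ a (n + j) ≤ σ + ε ^ 2 / 16 := by
        intro j hj
        have := b5 j hj
        rw [hU] at this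
        simp only [not_lt] at this
        rw [hσ]
        exact this
      have h1 := sum_LF δ a n K
      rw [← hσ] at h1
      have h2 : |∑ l, a l * (Sm δ l (n + K) - Sm δ l n)| ≤ k * B := by
        refine (Finset.abs_sum_le_sum_abs _ _).trans ?_
        calc ∑ l : Fin k, |a l * (Sm δ l (n + K) - Sm δ l n)| ≤ ∑ _l : Fin k, B := by
              refine Finset.sum_le_sum fun l _ => ?_
              rw [abs_mul]
              have q1 := Sm_le_of hn0 l.2.le b1.le
              have q2 := Sm_le_of hn0 l.2.le (show n0 ≤ n + K by omega)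
              have q3 := (abs_lt.1 b2).2
              have q4 := (abs_lt.1 b3).2
              have q5 : |Sm δ l (n + K) - Sm δ l n| ≤ B := by
                rw [abs_le]
                constructor <;> linarith [q1.1, q1.2, q2.1, q2.2]
              calc |a l| * |Sm δ l (n + K) - Sm δ l n| ≤ 1 * B :=
                    mul_le_mul (ha2 l) q5 (abs_nonneg _) zero_le_one
                _ = B := one_mul _
          _ = k * B := by
              rw [Finset.sum_const, Finset.card_univ, Fintype.card_fin, nsmul_eq_mul]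
      have h3 : |σ * (Sm δ K n - K)| ≤ k * (η * K) := by
        rw [abs_mul]
        exact mul_le_mul hσk b4.le (abs_nonneg _) (Nat.cast_nonneg _)
      have h4 : -(k * B + k * (η * K)) ≤ ∑ j ∈ range K, (LF δ a (n + j) - σ) := by
        rw [h1]
        have q1 := (abs_le.1 h2).1
        have q2 := (abs_le.1 h3).1
        linarith
      have h5 : (((range K).filter (fun j => Q (n + j))).card : ℝ) * ε ≤
          ∑ j ∈ range K, |LF δ a (n + j) - σ| := by
        rw [← nsmul_eq_mul]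
        refine le_trans (Finset.card_nsmul_le_sum _ (fun j => |LF δ a (n + j) - σ|) ε ?_)
          (Finset.sum_le_sum_of_subset_of_nonneg (Finset.filter_subset _ _)
            fun j _ _ => abs_nonneg _)
        intro j hj
        have := (Finset.mem_filter.1 hj).2
        rw [hQ] at this
        exact this
      have h6 : ∑ j ∈ range K, |LF δ a (n + j) - σ| ≤
          ∑ j ∈ range K, (2 * (ε ^ 2 / 16) - (LF δ a (n + j) - σ)) := by
        refine Finset.sum_le_sum fun j hj => ?_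
        have q1 := b5' j (mem_range.1 hj)
        have q2 : 0 ≤ ε ^ 2 / 16 := by positivity
        rw [abs_le]
        constructor <;> linarith
      rw [Finset.sum_sub_distrib, Finset.sum_const, Finset.card_range, nsmul_eq_mul] at h6
      have hkr : (0 : ℝ) ≤ k := Nat.cast_nonneg _
      have h7 : (k : ℝ) * (η * K) ≤ ε ^ 2 / 16 * K := by
        have q1 : (k : ℝ) * η ≤ ε ^ 2 / 16 := by
          rw [hη, mul_div_assoc', div_le_div_iff₀ (by positivity) (by norm_num)]
          nlinarith [sq_nonneg ε]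
        nlinarith
      have h8 : (k : ℝ) * B ≤ ε ^ 2 / 16 * K := by nlinarith
      have h9 : (((range K).filter (fun j => Q (n + j))).card : ℝ) * ε ≤ (ε / 4 * K) * ε := by
        calc _ ≤ (K : ℝ) * (2 * (ε ^ 2 / 16)) + (k * B + k * (η * K)) := by linarith
          _ ≤ (K : ℝ) * (2 * (ε ^ 2 / 16)) + (ε ^ 2 / 16 * K + ε ^ 2 / 16 * K) := by linarith
          _ = _ := by ring
      exact le_of_mul_le_mul_right h9 hε
  have hsum : (K : ℝ) * cnt Q N - K * K ≤ N * (ε / 4 * K) + K * cnt Bad N := by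
    have h1 : (K : ℝ) * cnt Q N ≤
        (∑ n ∈ Finset.Icc 1 N, ((range K).filter (fun j => Q (n + j))).card : ℕ) + K * K := by
      have h2 : K * cnt Q N ≤ ∑ n ∈ Finset.Icc 1 N, ((range K).filter (fun j => Q (n + j))).card +
          K * K := by
        rw [double]
        have h3 : ∑ _j ∈ range K, cnt Q N ≤ ∑ j ∈ range K, (cnt (fun n => Q (n + j)) N + K) := by
          refine Finset.sum_le_sum fun j hj => ?_
          have := cnt_ge_shift Q j N
          have := mem_range.1 hj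
          omega
        rw [Finset.sum_add_distrib, Finset.sum_const, Finset.sum_const, Finset.card_range,
          smul_eq_mul, smul_eq_mul] at h3
        exact h3
      exact_mod_cast h2
    have h2 : ((∑ n ∈ Finset.Icc 1 N, ((range K).filter (fun j => Q (n + j))).card : ℕ) : ℝ) ≤
        N * (ε / 4 * K) + K * cnt Bad N := by
      push_cast
      refine (Finset.sum_le_sum hpt).trans (le_of_eq ?_)
      rw [Finset.sum_add_distrib, Finset.sum_const, Nat.card_Icc, Nat.add_sub_cancel,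
        nsmul_eq_mul, ← Finset.sum_filter, Finset.sum_const, nsmul_eq_mul, ← cnt_card]
      ring
    linarith
  have hbad : (cnt Bad N : ℝ) ≤ n0 + (ε / 16 * N + ((ε / 16 * N + K) + (ε / 16 * N +
      K * (cnt U N + K)))) := by
    have h1 : cnt Bad N ≤ cnt (fun n => n ≤ n0) N + (cnt A N + (cnt (fun n => A (n + K)) N +
        (cnt E N + cnt (fun n => ∃ j < K, U (n + j)) N))) := by
      rw [hBad]
      refine (cnt_or _ _ N).trans (Nat.add_le_add_left ?_ _)
      refine (cnt_or _ _ N).trans (Nat.add_le_add_left ?_ _)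
      refine (cnt_or _ _ N).trans (Nat.add_le_add_left ?_ _)
      exact cnt_or _ _ N
    have h2 : cnt (fun n => n ≤ n0) N ≤ n0 := by
      have h7 : {n : ℕ | 1 ≤ n ∧ n ≤ N ∧ n ≤ n0} ⊆ ((Finset.Icc 1 n0 : Finset ℕ) : Set ℕ) := by
        rintro n ⟨g1, g2, g3⟩
        rw [Finset.coe_Icc]
        exact ⟨g1, g3⟩
      have h8 := Set.ncard_le_ncard h7 (Finset.finite_toSet _)
      rw [Set.ncard_coe_finset, Nat.card_Icc] at h8
      exact h8.trans (by omega)
    have h3 : cnt (fun n => A (n + K)) N ≤ cnt A N + K :=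
      (cnt_shift A K N).trans (cnt_le_add A K N)
    have h4 : cnt (fun n => ∃ j < K, U (n + j)) N ≤ K * (cnt U N + K) := by
      have h5 : ∀ m ≤ K, cnt (fun n => ∃ j < m, U (n + j)) N ≤ m * (cnt U N + K) := by
        intro m
        induction m with
        | zero =>
          intro _
          have h6 : cnt (fun n => ∃ j < 0, U (n + j)) N = 0 := by
            unfold cnt
            rw [Set.ncard_eq_zero (cnt_fin _ _)]
            ext n
            simp
          rw [h6]
          exact Nat.zero_le _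
        | succ m ih =>
          intro hm
          have h6 : cnt (fun n => ∃ j < m + 1, U (n + j)) N ≤
              cnt (fun n => (∃ j < m, U (n + j)) ∨ U (n + m)) N := by
            apply cnt_mono
            rintro n - ⟨j, hj, hP⟩
            rcases Nat.lt_succ_iff_lt_or_eq.1 hj with h | h
            · exact Or.inl ⟨j, h, hP⟩
            · subst h
              exact Or.inr hP
          have h7 := cnt_or (fun n => ∃ j < m, U (n + j)) (fun n => U (n + m)) N
          have h8 := (cnt_shift U m N).trans (cnt_le_add U m N)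
          have h9 := ih (by omega)
          calc cnt (fun n => ∃ j < m + 1, U (n + j)) N ≤ m * (cnt U N + K) + (cnt U N + K) := by
                omega
            _ = (m + 1) * (cnt U N + K) := by ring
      exact h5 K le_rfl
    have h5 : (cnt Bad N : ℝ) ≤ (n0 : ℝ) + (cnt A N + ((cnt A N + K) + (cnt E N +
        K * (cnt U N + K)))) := by
      have : cnt Bad N ≤ n0 + (cnt A N + ((cnt A N + K) + (cnt E N + K * (cnt U N + K)))) := by
        omega
      exact_mod_cast this
    linarith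
  have hKU : (K : ℝ) * cnt U N ≤ ε / 8 * N := by
    have h1 := mul_le_mul_of_nonneg_left hUc.le hKpos.le
    have e : (K : ℝ) * (ε / (8 * K) * N) = ε / 8 * N := by
      field_simp
    linarith
  -- conclude
  have hfin : (K : ℝ) * (ε * N - K) ≤ K * (N * (ε / 4) + (n0 + (ε / 16 * N + ((ε / 16 * N + K) +
      (ε / 16 * N + (ε / 8 * N + K * K)))))) := by
    have h1 : (K : ℝ) * (ε * N) ≤ K * cnt Q N := mul_le_mul_of_nonneg_left hQc hKpos.le
    have h2 : (K : ℝ) * cnt Bad N ≤ K * (n0 + (ε / 16 * N + ((ε / 16 * N + K) + (ε / 16 * N +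
      (ε / 8 * N + K * K))))) := by
      apply mul_le_mul_of_nonneg_left _ hKpos.le
      have e : (K : ℝ) * (cnt U N + K) = K * cnt U N + K * K := by ring
      linarith
    linarith
  have h1 := le_of_mul_le_mul_left hfin hKpos
  have h2 : (0 : ℝ) < ε * N := by positivity
  linarith

theorem both_sides {δ : ℕ → ℝ} (H : Fluct δ) {k : ℕ} (hND : ND δ k) :
    ∃ c : ℝ, 0 < c ∧ ∃ p : ℝ, 0 < p ∧ ∀ᶠ N : ℕ in atTop, ∀ a : Fin k → ℝ, (∃ j, 1 ≤ |a j|) →
        p * N ≤ (cnt (fun n => ∑ l, a l + c < LF δ a n) N : ℝ) ∧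
        p * N ≤ (cnt (fun n => LF δ a n < ∑ l, a l - c) N : ℝ) := by
  obtain ⟨c, hc, p, hp, h⟩ := one_side H hND
  refine ⟨c, hc, p, hp, ?_⟩
  filter_upwards [h] with N hN a ha
  have key : ∀ a : Fin k → ℝ, (∃ j, 1 ≤ |a j|) →
      p * N ≤ (cnt (fun n => ∑ l, a l + c < LF δ a n) N : ℝ) := by
    intro a ha
    obtain ⟨j0, hj0⟩ := ha
    have hs1 : 1 ≤ ‖a‖ := by
      refine hj0.trans ?_
      rw [← Real.norm_eq_abs]
      exact norm_le_pi_norm a j0
    have hs : 0 < ‖a‖ := by linarith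
    obtain ⟨j1, hj1⟩ : ∃ j, ‖a‖ ≤ |a j| := by
      by_contra hcon
      push Not at hcon
      have : ‖a‖ < ‖a‖ := by
        rw [pi_norm_lt_iff hs]
        exact hcon
      exact lt_irrefl _ this
    have h1 := hN (fun j => a j / ‖a‖) ⟨j1, by
      rw [abs_div, abs_norm, le_div_iff₀ hs, one_mul]
      exact hj1⟩ (fun j => by
      rw [abs_div, abs_norm, div_le_one hs]
      exact norm_le_pi_norm a j)
    refine h1.trans ?_
    have h2 : cnt (fun n => ∑ l, a l / ‖a‖ + c < LF δ (fun j => a j / ‖a‖) n) N ≤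
        cnt (fun n => ∑ l, a l + c < LF δ a n) N := by
      apply cnt_mono
      intro n _ hn
      have e1 : LF δ (fun j => a j / ‖a‖) n = LF δ a n / ‖a‖ := by
        unfold LF
        rw [Finset.sum_div]
        refine Finset.sum_congr rfl fun l _ => ?_
        ring
      rw [e1, ← Finset.sum_div, lt_div_iff₀ hs, add_mul, div_mul_cancel₀ _ hs.ne'] at hn
      have : c ≤ c * ‖a‖ := le_mul_of_one_le_right hc.le hs1
      linarith
    exact_mod_cast h2
  refine ⟨key a ha, ?_⟩
  have h1 := key (fun j => - a j) (by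
    obtain ⟨j, hj⟩ := ha
    exact ⟨j, by rwa [abs_neg]⟩)
  refine h1.trans ?_
  have h2 : cnt (fun n => ∑ l, - a l + c < LF δ (fun j => - a j) n) N ≤
      cnt (fun n => LF δ a n < ∑ l, a l - c) N := by
    apply cnt_mono
    intro n _ hn
    have e1 : LF δ (fun j => - a j) n = - LF δ a n := by
      unfold LF
      rw [← Finset.sum_neg_distrib]
      refine Finset.sum_congr rfl fun l _ => ?_
      ring
    rw [e1, Finset.sum_neg_distrib] at hn
    linarith
  exact_mod_cast h2

end Pool.Agent.V11270.GS
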