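import Mathlib
import Pool.Agent.TH800.DM.Mn
import Pool.Agent.TH861.RGP.Fin
import Pool.Agent.H382P.PosProp
import Pool.Agent.V11270.GS.Diff

set_option autoImplicit false

/-!
# The unfolded gaps of the zeta zeros satisfy the hypotheses `Fluct`
-/

namespace Pool.Agent.V11270.GS

open Filter Finset
open LG.CU (del)

lemma rhs_of (RH : RiemannHypothesis) : SP.RHs := by
  intro s h1 h2 h0
  apply RH s h0
  · rintro ⟨k, hk⟩
    have := congrArg Complex.re hk
    simp at this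
    have hk0 : (0 : ℝ) ≤ k := Nat.cast_nonneg k
    linarith
  · intro h; rw [h] at h2; simp at h2

lemma pp_large {r : ℕ} {c : ℝ} (h : RGap.PosLarge r c) : PP (fun n => c < Sm del r n) := by
  obtain ⟨p, hp, h⟩ := h
  refine pp_mono (P := fun n => c < (SG.ord (n + r) - SG.ord n) / (2 * Real.pi) *
    Real.log (SG.ord n / (2 * Real.pi))) ⟨p, hp, h⟩ ?_
  intro n h1 h3
  refine lt_of_lt_of_le h3 ?_
  have hpi := Real.pi_pos
  have hp0 : 0 < SG.ord n := SG.ord_pos h1
  have h4 : ∀ i : ℕ, (SG.ord (n + (i + 1)) - SG.ord (n + i)) / (2 * Real.pi) *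
      Real.log (SG.ord n / (2 * Real.pi)) ≤ del (n + i) := by
    intro i
    show _ ≤ (SG.ord (n + i + 1) - SG.ord (n + i)) / (2 * Real.pi) *
      Real.log (SG.ord (n + i) / (2 * Real.pi))
    rw [show n + (i + 1) = n + i + 1 by ring]
    apply mul_le_mul_of_nonneg_left
    · apply Real.log_le_log (by positivity)
      apply div_le_div_of_nonneg_right _ (by positivity)
      exact SG.ord_mono h1 (by omega)
    · apply div_nonneg _ (by positivity)
      have := SG.ord_mono (show 1 ≤ n + i by omega) (show n + i ≤ n + i + 1 by omega)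
      linarith
  calc (SG.ord (n + r) - SG.ord n) / (2 * Real.pi) * Real.log (SG.ord n / (2 * Real.pi))
      = ∑ i ∈ Finset.range r, (SG.ord (n + (i + 1)) - SG.ord (n + i)) / (2 * Real.pi) *
        Real.log (SG.ord n / (2 * Real.pi)) := by
        rw [← Finset.sum_mul, ← Finset.sum_div,
          Finset.sum_range_sub (fun i => SG.ord (n + i)) r, add_zero]
    _ ≤ ∑ i ∈ Finset.range r, del (n + i) := Finset.sum_le_sum fun i _ => h4 i

lemma pp_small {r : ℕ} {c c' : ℝ} (h : RGap.PosSmall r c) (hc : c < c') :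
    PP (fun n => Sm del r n < c') := by
  obtain ⟨p, hp, h⟩ := h.delta hc
  refine pp_mono (P := fun n => (SG.ord (n + r) * Real.log (SG.ord (n + r)) -
    SG.ord n * Real.log (SG.ord n)) / (2 * Real.pi) < c') ⟨p, hp, h⟩ ?_
  intro n h1 h3
  refine lt_of_le_of_lt ?_ h3
  have h4 : ∀ i : ℕ, del (n + i) ≤ SG.ord (n + (i + 1)) * Real.log (SG.ord (n + (i + 1))) /
      (2 * Real.pi) - SG.ord (n + i) * Real.log (SG.ord (n + i)) / (2 * Real.pi) := fun i =>
    RGap.gap_le (n + i) (by omega)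
  calc ∑ i ∈ Finset.range r, del (n + i) ≤ ∑ i ∈ Finset.range r,
      (SG.ord (n + (i + 1)) * Real.log (SG.ord (n + (i + 1))) / (2 * Real.pi) -
        SG.ord (n + i) * Real.log (SG.ord (n + i)) / (2 * Real.pi)) :=
        Finset.sum_le_sum fun i _ => h4 i
    _ = (SG.ord (n + r) * Real.log (SG.ord (n + r)) - SG.ord n * Real.log (SG.ord n)) /
        (2 * Real.pi) := by
        rw [Finset.sum_range_sub (fun i => SG.ord (n + i) * Real.log (SG.ord (n + i)) /
          (2 * Real.pi)) r, add_zero, sub_div]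

lemma two_zeta (RH : RiemannHypothesis) (R : ℕ) (hR : 1 ≤ R) :
    TwoSided (fun n => Sm del R n - R) := by
  have hRHs := rhs_of RH
  have hRr : (1 : ℝ) ≤ R := by exact_mod_cast hR
  have hs : 1 ≤ Real.sqrt R := by
    rw [← Real.sqrt_one]
    exact Real.sqrt_le_sqrt hRr
  refine ⟨12 / 25, by norm_num, ?_, ?_⟩
  · refine pp_mono (pp_large (RGP.large_all hRHs hR)) fun n _ hn => ?_
    linarith
  · rcases (show R = 1 ∨ 2 ≤ R by omega) with h1 | h2
    · subst h1
      obtain ⟨ε, hε, h⟩ := SP.pos_prop_delta hRHs (13 / 25) (by norm_num)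
      refine pp_mono (P := fun n => (SG.ord (n + 1) - SG.ord n) / (2 * Real.pi) *
        Real.log (SG.ord n / (2 * Real.pi)) < 13 / 25) ⟨ε, hε, h⟩ fun n _ hn => ?_
      have e : Sm del 1 n = (SG.ord (n + 1) - SG.ord n) / (2 * Real.pi) *
          Real.log (SG.ord n / (2 * Real.pi)) := by
        unfold Sm
        rw [Finset.sum_range_one, add_zero]
        rfl
      show Sm del 1 n - ((1 : ℕ) : ℝ) < -(12 / 25)
      rw [e, Nat.cast_one]
      linarith
    · refine pp_mono (pp_small (RGP.small_all hRHs h2).1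
        (show (R : ℝ) - Real.sqrt R + 103 / 200 < R - 12 / 25 by
          have h3 : 1.414 ≤ Real.sqrt R := by
            apply Real.le_sqrt_of_sq_le
            have : (2 : ℝ) ≤ R := by exact_mod_cast h2
            norm_num
            linarith
          linarith)) fun n _ hn => ?_
      linarith

lemma mean_zeta (RH : RiemannHypothesis) (ε : ℝ) (hε : 0 < ε) (τ : ℝ) (hτ : 0 < τ) :
    ∃ M0 : ℕ, ∀ M : ℕ, M0 ≤ M → ∀ᶠ N : ℕ in atTop,
    (cnt (fun n => ε * M ≤ |Sm del M n - M|) N : ℝ) ≤ τ * N := by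
  obtain ⟨ε1, hε1⟩ : ∃ ε1 : ℝ, ε1 = min ε 1 / 2 := ⟨_, rfl⟩
  have h10 : 0 < ε1 := by rw [hε1]; positivity
  have h11 : ε1 ≤ 1 / 2 := by
    rw [hε1]
    have := min_le_right ε 1
    linarith
  have h12 : 2 * ε1 ≤ ε := by
    rw [hε1]
    have := min_le_left ε 1
    linarith
  obtain ⟨K, m0, N0, hK, hm0, hN0, h⟩ := TH800.DM.mean RH ε1 h10 (by linarith)
  obtain ⟨n0, hn0, hcmp⟩ := TH800.DM.del_cmp RH ε1 h10
  refine ⟨⌈m0⌉₊ + ⌈2 * K / τ⌉₊ + 1, fun M hM => ?_⟩
  have hMr : (0 : ℝ) < M := by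
    have : 0 < M := by omega
    exact_mod_cast this
  have hM1 : m0 ≤ M := (Nat.le_ceil _).trans (by
    have : ⌈m0⌉₊ ≤ M := by omega
    exact_mod_cast this)
  have hM2 : 2 * K / τ ≤ M := (Nat.le_ceil _).trans (by
    have : ⌈2 * K / τ⌉₊ ≤ M := by omega
    exact_mod_cast this)
  have hlog : Tendsto (fun N : ℕ => Real.log N) atTop atTop :=
    Real.tendsto_log_atTop.comp tendsto_natCast_atTop_atTop
  filter_upwards [eventually_ge_atTop N0, hlog.eventually_ge_atTop (8 * M),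
    eventually_ge_atTop ⌈2 * n0 / τ⌉₊] with N h1 h2 h3
  have h4 := h N h1 M (by exact_mod_cast hM1) (by linarith)
  have h5 : cnt (fun n => ε * M ≤ |Sm del M n - M|) N ≤
      cnt (fun n => n ≤ n0 ∨ ε1 * M ≤ |∑ i ∈ range M, TH800.MS.dlt (n + i) - M|) N := by
    apply cnt_mono
    intro n _ hn
    by_contra hcon
    push Not at hcon
    obtain ⟨g1, g2⟩ := hcon
    have g3 : Sm del M n ≤ ∑ i ∈ range M, TH800.MS.dlt (n + i) :=
      Finset.sum_le_sum fun i _ => (hcmp (n + i) (by omega)).2.1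
    have g4 : ∑ i ∈ range M, TH800.MS.dlt (n + i) ≤ Sm del M n + ε1 * Sm del M n := by
      unfold Sm
      rw [Finset.mul_sum, ← Finset.sum_add_distrib]
      exact Finset.sum_le_sum fun i _ => (hcmp (n + i) (by omega)).2.2
    rw [abs_lt] at g2
    obtain ⟨g5, g6⟩ := g2
    have g7 : |Sm del M n - M| < 2 * ε1 * M := by
      rw [abs_lt]
      constructor
      · nlinarith
      · nlinarith
    have g8 : 2 * ε1 * M ≤ ε * M := mul_le_mul_of_nonneg_right h12 hMr.le
    linarith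
  have h6 := cnt_or (fun n => n ≤ n0)
    (fun n => ε1 * M ≤ |∑ i ∈ range M, TH800.MS.dlt (n + i) - M|) N
  have h7 : cnt (fun n => n ≤ n0) N ≤ n0 := by
    have h7 : {n : ℕ | 1 ≤ n ∧ n ≤ N ∧ n ≤ n0} ⊆ ((Finset.Icc 1 n0 : Finset ℕ) : Set ℕ) := by
      rintro n ⟨g1, g2, g3⟩
      rw [Finset.coe_Icc]
      exact ⟨g1, g3⟩
    have h8 := Set.ncard_le_ncard h7 (Finset.finite_toSet _)
    rw [Set.ncard_coe_finset, Nat.card_Icc] at h8
    exact h8.trans (by omega)
  have h8 : (cnt (fun n => ε * M ≤ |Sm del M n - M|) N : ℝ) ≤ n0 +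
      (cnt (fun n => ε1 * M ≤ |∑ i ∈ range M, TH800.MS.dlt (n + i) - M|) N : ℝ) := by
    have : cnt (fun n => ε * M ≤ |Sm del M n - M|) N ≤ n0 +
      cnt (fun n => ε1 * M ≤ |∑ i ∈ range M, TH800.MS.dlt (n + i) - M|) N := by omega
    exact_mod_cast this
  have h9 : 2 * n0 / τ ≤ N := (Nat.le_ceil _).trans (by exact_mod_cast h3)
  rw [div_le_iff₀ hτ] at h9
  have h13 : K * (N * (1 / M)) ≤ τ / 2 * N := by
    rw [div_le_iff₀ hτ] at hM2
    have e : K * ((N : ℝ) * (1 / M)) = (K / M) * N := by ring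
    rw [e]
    apply mul_le_mul_of_nonneg_right _ (Nat.cast_nonneg _)
    rw [div_le_iff₀ hMr]
    linarith
  have h14 : (cnt (fun n => ε1 * M ≤ |∑ i ∈ range M, TH800.MS.dlt (n + i) - M|) N : ℝ) ≤
      K * (N * (1 / M)) := h4
  linarith

theorem fluct_zeta (RH : RiemannHypothesis) : Fluct del where
  nonneg := by
    obtain ⟨n0, -, h⟩ := TH800.DM.del_cmp RH 1 one_pos
    exact ⟨n0, fun n hn => (h n hn).1⟩
  mean := mean_zeta RH
  two := two_zeta RH

end Pool.Agent.V11270.GS
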