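import Mathlib
import Pool.Agent.Y743.LR.NT5
import Pool.Agent.V11270.GS.Zeta
import Pool.Agent.V11270.GS.Both

set_option autoImplicit false

/-!
# Linear forms in consecutive unfolded gaps of the zeta zeros lie on both sides of their mean
-/

namespace Pool.Agent.V11270.GS

open Filter Finset
open LG.CU (del)

lemma dl_eq (n : ℕ) : Pool.Agent.Y743.LR.dl n = del n := by
  show (SG.ord (n + 1) - SG.ord n) * Real.log (SG.ord n / (2 * Real.pi)) / (2 * Real.pi) =
    (SG.ord (n + 1) - SG.ord n) / (2 * Real.pi) * Real.log (SG.ord n / (2 * Real.pi))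
  ring

lemma nd_zeta (RH : RiemannHypothesis) (k : ℕ) : ND del k := by
  obtain ⟨ε, hε, h⟩ := Pool.Agent.Y743.LR.gaps RH k
  refine ⟨ε, hε, ?_⟩
  filter_upwards [h] with N hN a ha b
  have h1 := hN a ha b
  simp only [dl_eq] at h1
  exact h1

theorem both_zeta (RH : RiemannHypothesis) (k : ℕ) :
    ∃ c : ℝ, 0 < c ∧ ∃ p : ℝ, 0 < p ∧ ∀ᶠ N : ℕ in atTop, ∀ a : Fin k → ℝ, (∃ j, 1 ≤ |a j|) →
        p * N ≤ (cnt (fun n => ∑ l, a l + c < LF del a n) N : ℝ) ∧
        p * N ≤ (cnt (fun n => LF del a n < ∑ l, a l - c) N : ℝ) :=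
  both_sides (fluct_zeta RH) (nd_zeta RH k)

end Pool.Agent.V11270.GS
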