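import Mathlib
import Pool.Agent.V11270.GS.Diff

set_option autoImplicit false

/-!
# Finite differences and approximation by polynomials
-/

namespace Pool.Agent.V11270.GS

open Filter Finset

/-- the difference operator -/
def Dop (w : ℕ → ℝ) : ℕ → ℝ := fun j => w (j + 1) - w j

lemma Dop_bound {B : ℝ} : ∀ (k : ℕ) (w : ℕ → ℝ) (j : ℕ), (∀ i ≤ k, |w (j + i)| ≤ B) →
    |Dop^[k] w j| ≤ 2 ^ k * B := by
  intro k
  induction k with
  | zero =>
    intro w j h
    have := h 0 le_rfl
    simpa using this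
  | succ k ih =>
    intro w j h
    rw [Function.iterate_succ_apply']
    show |Dop^[k] w (j + 1) - Dop^[k] w j| ≤ _
    have h1 := ih w (j + 1) (fun i hi => by
      have := h (i + 1) (by omega)
      rwa [show j + (i + 1) = j + 1 + i by ring] at this)
    have h2 := ih w j (fun i hi => h i (by omega))
    calc |Dop^[k] w (j + 1) - Dop^[k] w j| ≤ |Dop^[k] w (j + 1)| + |Dop^[k] w j| := abs_sub _ _
      _ ≤ 2 ^ k * B + 2 ^ k * B := add_le_add h1 h2
      _ = 2 ^ (k + 1) * B := by ring

lemma Dop_sub (k : ℕ) : ∀ (v w : ℕ → ℝ), Dop^[k] (fun j => v j - w j) =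
    fun j => Dop^[k] v j - Dop^[k] w j := by
  induction k with
  | zero => intro v w; rfl
  | succ k ih =>
    intro v w
    rw [Function.iterate_succ_apply, Function.iterate_succ_apply, Function.iterate_succ_apply]
    rw [← ih (Dop v) (Dop w)]
    congr 1
    funext j
    unfold Dop
    ring

lemma Dop_cast (k : ℕ) : ∀ f : ℝ → ℝ, Dop^[k] (fun j : ℕ => f j) =
    fun j : ℕ => (fwdDiff (1 : ℝ))^[k] f j := by
  induction k with
  | zero => intro f; rfl
  | succ k ih =>
    intro f
    rw [Function.iterate_succ_apply, Function.iterate_succ_apply, ← ih]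
    congr 1
    funext j
    unfold Dop fwdDiff
    push_cast
    rfl

lemma Dop_poly {P : Polynomial ℝ} {k : ℕ} (h : P.natDegree < k) (j : ℕ) :
    Dop^[k] (fun j : ℕ => P.eval (j : ℝ)) j = 0 := by
  rw [Dop_cast k (fun x => P.eval x)]
  have := Polynomial.fwdDiff_iter_eq_zero_of_degree_lt h
  exact congrFun this (j : ℝ)

lemma DD_rep (k : ℕ) (u : ℕ → ℝ) : DD (List.replicate k 1) u = Dop^[k] u := by
  induction k with
  | zero => rfl
  | succ k ih =>
    rw [Function.iterate_succ_apply', ← ih]
    rfl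

lemma Dop_shift (k : ℕ) : ∀ (u : ℕ → ℝ) (n : ℕ), Dop^[k] (fun j => u (n + j)) =
    fun j => Dop^[k] u (n + j) := by
  induction k with
  | zero => intro u n; rfl
  | succ k ih =>
    intro u n
    rw [Function.iterate_succ_apply, Function.iterate_succ_apply, ← ih (Dop u) n]
    rfl

/-- large differences prevent approximation by polynomials -/
theorem no_poly {δ : ℕ → ℝ} {d n : ℕ} {c : ℝ}
    (h : c < |DD (List.replicate d 1) (Sm δ 1) n|) (P : Polynomial ℝ) (hP : P.natDegree ≤ d) :
    ∃ j ≤ d + 1, c / 2 ^ (d + 1) < |∑ i ∈ range j, δ (n + i) - P.eval (j : ℝ)| := by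
  by_contra hcon
  push Not at hcon
  have h1 := Dop_bound (d + 1) (fun j => ∑ i ∈ range j, δ (n + i) - P.eval (j : ℝ)) 0
    (B := c / 2 ^ (d + 1)) (fun i hi => by
      have := hcon i hi
      rwa [Nat.zero_add])
  rw [Dop_sub (d + 1) (fun j => ∑ i ∈ range j, δ (n + i)) (fun j => P.eval (j : ℝ))] at h1
  dsimp only at h1
  rw [Dop_poly (by omega), sub_zero, mul_div_cancel₀ _ (by positivity)] at h1
  have h2 : Sm δ 1 = δ := by
    funext n
    unfold Sm
    rw [Finset.sum_range_one, add_zero]
  rw [h2, DD_rep] at h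
  rw [Function.iterate_succ_apply] at h1
  have h3 : Dop (fun j => ∑ i ∈ range j, δ (n + i)) = fun j => δ (n + j) := by
    funext j
    unfold Dop
    dsimp only
    rw [Finset.sum_range_succ]
    ring
  rw [h3, Dop_shift d δ n] at h1
  dsimp only at h1
  rw [add_zero] at h1
  linarith

end Pool.Agent.V11270.GS
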